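import Pool.Agent.H85.UQ.LemA

/-! Absorption of small positive elements, from comparison. -/

set_option autoImplicit false

open scoped ComplexConjugate

noncomputable section

namespace Pool.Agent.H85.UQ

open Pool.Agent.H923R2.FP Pool.Agent.H923R2.FZ Pool.Agent.N300.UN
open Pool.Agent.N300.UN.T_DATA

section

variable {B : Type} [CStarAlgebra B] {τ : B →ₗ[ℂ] ℂ}

theorem self_mul_cfc (a : B) (ha : star a = a) (H : ℝ → ℝ) (hH : Continuous H) :
    a * cfc H a = cfc (fun t => t * H t) a := by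
  have ha' : IsSelfAdjoint a := ha
  calc a * cfc H a = cfc (fun t : ℝ => t) a * cfc H a := by rw [cfc_id' ℝ a ha']
    _ = _ := cmul a (fun t : ℝ => t) H continuous_id hH

theorem fn_cont (n : ℕ) : Continuous fun t : ℝ => min 1 ((n : ℝ) * t) := by fun_prop

theorem fh_cont (n : ℕ) : Continuous fun t : ℝ => (n : ℝ) / max 1 ((n : ℝ) * t) := by
  refine continuous_const.div (by fun_prop) fun t => ?_
  exact (lt_of_lt_of_le one_pos (le_max_left _ _)).ne'

theorem fn_eq (n : ℕ) (t : ℝ) : min 1 ((n : ℝ) * t) = t * ((n : ℝ) / max 1 ((n : ℝ) * t)) := by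
  rcases le_total ((n : ℝ) * t) 1 with h | h
  · rw [min_eq_right h, max_eq_left h, div_one, mul_comm]
  · rw [min_eq_left h, max_eq_right h, mul_div_assoc', mul_comm t, div_self (by linarith)]

/-- the trace of an element supported under `z` -/
theorem tr_supp (hτ : FTS τ) (a z : B) (ha : star a = a) (hz : star z = z) (hza : z * a = a)
    (n : ℕ) : (τ (cfc (fun t : ℝ => min 1 ((n : ℝ) * t)) a)).re ≤ (τ (z * z)).re := by
  set F := cfc (fun t : ℝ => min 1 ((n : ℝ) * t)) a with hF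
  have ha' : IsSelfAdjoint a := ha
  have e1 : F = a * cfc (fun t : ℝ => (n : ℝ) / max 1 ((n : ℝ) * t)) a := by
    rw [self_mul_cfc a ha _ (fh_cont n), hF]
    congr 1
    funext t
    exact fn_eq n t
  have e2 : z * F = F := by rw [e1, ← mul_assoc, hza]
  have e3 : F * z = F := by
    have h1 := congrArg star e2
    rwa [star_mul, hz, hF, star_cfc] at h1
  set w := cfc (fun t : ℝ => √(1 - min 1 ((n : ℝ) * t))) a with hw
  have e4 : star w * w = 1 - F := by
    rw [hw, star_cfc, cmul _ _ _ (by fun_prop) (by fun_prop), hF, ← cfc_const_one ℝ a ha',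
      ← cfc_sub (fun _ => (1 : ℝ)) _ a continuousOn_const (fn_cont n).continuousOn]
    congr 1
    funext t
    refine Real.mul_self_sqrt ?_
    have : min 1 ((n : ℝ) * t) ≤ 1 := min_le_left _ _
    linarith
  have e5 : star (w * z) * (w * z) = z * z - F := by
    rw [star_mul, hz]
    calc z * star w * (w * z) = z * (star w * w) * z := by simp only [mul_assoc]
      _ = z * z - z * F * z := by rw [e4]; noncomm_ring
      _ = z * z - F := by rw [e2, e3]
  have e6 := hτ.nonneg (w * z)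
  rw [e5, map_sub, Complex.sub_re] at e6
  linarith

variable {X : Type} [MetricSpace X] [CompactSpace X]

/-- the trace of the corner -/
theorem tr_low (hτ : FTS τ) (φ : C(X, ℂ) →⋆ₐ[ℂ] B) (P : B) (hP : star P = P) (e : ℝ)
    (o s : C(X, ℝ)) (hs : s * s = o) (hs1 : ∀ x, |s x| ≤ 1) (hm : 0 < mn τ φ o) :
    mn τ φ o - 2 * (τ (cfc (kp e 4) P)).re ≤
      (τ (cfc (fun t => 1 - kp e 4 t) P * φ (cxx o) * cfc (fun t => 1 - kp e 4 t) P)).re := by
  set κ := (τ (cfc (kp e 4) P)).re with hκ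
  set m := mn τ φ o with hmm
  have hAdP : AdP (fun _ : ℕ => StarAlgHom.id ℂ B) (⊤ : StarSubalgebra ℂ B) τ P e κ :=
    ⟨hP, fun _ _ _ => trivial, fun _ => le_rfl⟩
  set c : ℝ := (√m)⁻¹ with hc
  have hcm : c ^ 2 * m = 1 := by
    rw [hc, inv_pow, Real.sq_sqrt hm.le, inv_mul_cancel₀ hm.ne']
  have h1 := xc_tr_low (Φ := φ) hτ hAdP c m hcm s hs1 0 (by
    rw [hs]
    rfl)
  have h2 : τ (star ((StarAlgHom.id ℂ B) (xc P φ e c s)) * (StarAlgHom.id ℂ B) (xc P φ e c s)) =
      ((c ^ 2 : ℝ) : ℂ) *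
        τ (cfc (fun t => 1 - kp e 4 t) P * φ (cxx o) * cfc (fun t => 1 - kp e 4 t) P) := by
    have e1 : (StarAlgHom.id ℂ B) (xc P φ e c s) = xc P φ e c s := rfl
    rw [e1]
    unfold xc cell
    rw [star_smul, smul_mul_smul_comm, map_smul, smul_eq_mul, Complex.star_def,
      Complex.conj_ofReal]
    congr 1
    · push_cast; ring
    · congr 1
      rw [star_mul, star_cfc, ← map_star, star_cxx, ← hs, ← cxx_mul, map_mul]
      simp only [mul_assoc]
  rw [h2, Complex.re_ofReal_mul] at h1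
  have h3 : 0 < c ^ 2 := by
    by_contra hcon
    have : c ^ 2 = 0 := le_antisymm (not_lt.1 hcon) (sq_nonneg c)
    rw [this, zero_mul] at hcm
    exact zero_ne_one hcm
  have h4 : c ^ 2 * (m - 2 * κ) ≤ c ^ 2 *
      (τ (cfc (fun t => 1 - kp e 4 t) P * φ (cxx o) * cfc (fun t => 1 - kp e 4 t) P)).re := by
    calc c ^ 2 * (m - 2 * κ) = c ^ 2 * m - c ^ 2 * (2 * κ) := by ring
      _ = 1 - c ^ 2 * (2 * κ) := by rw [hcm]
      _ ≤ _ := h1
  exact le_of_mul_le_mul_left h4 h3

theorem cut_cont (δ : ℝ) : Continuous fun t : ℝ => max 0 (t - δ) := by fun_prop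

/-- absorption of one element -/
theorem absorb1 (hτ : FTS τ) (hc : CmpT τ) (φ : C(X, ℂ) →⋆ₐ[ℂ] B) (P : B) (hP : star P = P)
    (e : ℝ) (Y : B) (hY : cfc (kp e 4) P * star Y = star Y)
    (o : C(X, ℝ)) (ho : ∀ x, 0 ≤ o x ∧ o x ≤ 1) (δ : ℝ) (hδ : 0 < δ) (hδm : 8 * δ = mn τ φ o)
    (hκ : (τ (cfc (kp e 4) P)).re < 2 * δ) (ε : ℝ) (hε : 0 < ε) (b : B)
    (hb : b = cfc (fun t => 1 - kp e 4 t) P * φ (cxx o) * cfc (fun t => 1 - kp e 4 t) P) :
    ∃ v : B, ‖v * cfc (fun t : ℝ => max 0 (t - δ)) b * star v - star Y * Y‖ < ε := by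
  have hGs : Continuous fun t : ℝ => √t := Real.continuous_sqrt
  set s := cmp (fun t => √t) hGs o with hs
  have hss : s * s = o := by
    ext x
    exact Real.mul_self_sqrt (ho x).1
  have hs1 : ∀ x, |s x| ≤ 1 := fun x => by
    rw [hs, cmp_apply, abs_of_nonneg (Real.sqrt_nonneg _)]
    exact Real.sqrt_le_one.2 (ho x).2
  have hlow := tr_low hτ φ P hP e o s hss hs1 (by rw [← hδm]; positivity)
  rw [← hb] at hlow
  set q := cfc (fun t => 1 - kp e 4 t) P with hq
  have hqs : star q = q := star_cfc _ _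
  have hbs : star b = b := by
    rw [hb, star_mul, star_mul, hqs, ← map_star, star_cxx, mul_assoc]
  have hbs' : IsSelfAdjoint b := hbs
  have hbn : ‖b‖ ≤ 1 := by
    rw [hb]
    have e1 : ‖q‖ ≤ 1 := norm_cfc_le_one _ _ q_abs
    have e2 : ‖φ (cxx o)‖ ≤ 1 := (hom_norm φ _).trans (norm_cxx_le _ 1 zero_le_one fun x => by
      rw [abs_of_nonneg (ho x).1]; exact (ho x).2)
    calc _ ≤ ‖q‖ * ‖φ (cxx o)‖ * ‖q‖ := norm_mul₃_le
      _ ≤ 1 * 1 * 1 := by gcongr
      _ = 1 := by norm_num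
  have hNt : Nontrivial B := ⟨⟨1, 0, fun h => by
    have h1 := hτ.one
    rw [h, map_zero] at h1
    exact zero_ne_one h1⟩⟩
  set y := cfc (fun t : ℝ => √(max 0 (t - δ))) b with hy
  have hyy : star y * y = cfc (fun t : ℝ => max 0 (t - δ)) b := by
    rw [hy, star_cfc, cmul _ _ _ (by fun_prop) (by fun_prop)]
    congr 1
    funext t
    exact Real.mul_self_sqrt (le_max_left _ _)
  obtain ⟨n0, hn0⟩ := exists_nat_gt (1 / δ)
  have hn0δ : 1 < n0 * δ := by rwa [div_lt_iff₀ hδ] at hn0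
  have hYs : star (star Y * Y) = star Y * Y := by rw [star_mul, star_star]
  have hz : star (cfc (kp e 4) P) = cfc (kp e 4) P := star_cfc _ _
  have hzz : (τ (cfc (kp e 4) P * cfc (kp e 4) P)).re ≤ (τ (cfc (kp e 4) P)).re := by
    rw [cmul _ _ _ (kp_cont _ _) (kp_cont _ _)]
    refine tr_mono hτ P _ _ hP (by have := kp_cont e 4; fun_prop) (kp_cont _ _) fun t => ?_
    have := kp_01 e 4 t
    exact mul_le_of_le_one_left this.1 this.2
  have hmain := hc Y y (τ (cfc (kp e 4) P)).re n0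
    (fun n => (tr_supp hτ _ _ hYs hz (by rw [← mul_assoc, hY]) n).trans hzz)
    (by
      rw [hyy, ← cfc_comp' (fun t : ℝ => min 1 ((n0 : ℝ) * t)) (fun t : ℝ => max 0 (t - δ)) b
        (fn_cont n0).continuousOn (cut_cont δ).continuousOn hbs']
      have e1 := tr_mono hτ b (fun t => min t 1 - 2 * δ)
        (fun t : ℝ => min 1 ((n0 : ℝ) * max 0 (t - δ))) hbs (by fun_prop) (by fun_prop) (by
          intro t
          rcases le_total (2 * δ) t with h | h
          · have h1 : δ ≤ max 0 (t - δ) := le_trans (by linarith) (le_max_right _ _)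
            have h2 : 1 ≤ (n0 : ℝ) * max 0 (t - δ) := by
              have : (n0 : ℝ) * δ ≤ n0 * max 0 (t - δ) := by gcongr
              linarith
            rw [min_eq_left h2]
            have : min t 1 ≤ 1 := min_le_right _ _
            linarith
          · have h1 : 0 ≤ max 0 (t - δ) := le_max_left _ _
            have h2 : 0 ≤ min 1 ((n0 : ℝ) * max 0 (t - δ)) := le_min zero_le_one (by positivity)
            have : min t 1 ≤ t := min_le_left _ _
            linarith)
      refine lt_of_lt_of_le ?_ e1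
      have e2 : cfc (fun t : ℝ => min t 1 - 2 * δ) b = b - ((2 * δ : ℝ) : ℂ) • (1 : B) := by
        have h1 : cfc (fun t : ℝ => min t 1 - 2 * δ) b = cfc (fun t : ℝ => t - 2 * δ) b := by
          refine cfc_congr fun t ht => ?_
          have h2 : ‖t‖ ≤ ‖b‖ := spectrum.norm_le_norm_of_mem ht
          have h3 : t ≤ 1 := (le_abs_self t).trans (h2.trans hbn)
          simp only [min_eq_left h3]
        rw [h1, cfc_sub (fun t : ℝ => t) (fun _ => 2 * δ) b continuousOn_id continuousOn_const,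
          cfc_id' ℝ b hbs', cfc_const (2 * δ) b hbs', Algebra.algebraMap_eq_smul_one]
        congr 1
      rw [e2, map_sub, map_smul, hτ.one, smul_eq_mul, mul_one, Complex.sub_re, Complex.ofReal_re]
      linarith) ε hε
  obtain ⟨v, hv⟩ := hmain
  rw [hyy] at hv
  exact ⟨v, hv⟩

end

section seq

variable {B L Q : Type} [CStarAlgebra B] [CStarAlgebra L] [CStarAlgebra Q]
  {ev : ℕ → (L →⋆ₐ[ℂ] B)} {pr : L →⋆ₐ[ℂ] Q} {τ : B →ₗ[ℂ] ℂ}
  {X : Type} [MetricSpace X] [CompactSpace X]

/-- absorption in the sequence algebra -/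
theorem absorb (hSQ : SQ ev pr) (hτ : FTS τ) (hc : CmpT τ) (φ : C(X, ℂ) →⋆ₐ[ℂ] B)
    (Φ : C(X, ℂ) →⋆ₐ[ℂ] L) (hΦ : ∀ f k, ev k (Φ f) = φ f) (PL : L) (hP : star PL = PL) (e : ℝ)
    (hκ : ∀ η : ℝ, 0 < η → ∀ᶠ k in Filter.atTop, (τ (cfc (kp e 4) (ev k PL))).re < η)
    (hcomm : ∀ f, Commute (pr (Φ f)) (pr (cfc (fun t => 1 - kp e 4 t) PL)))
    (Y : L) (hY1 : ∀ k, ‖ev k Y‖ ≤ 1) (hYz : cfc (kp e 4) PL * star Y = star Y)
    (o : C(X, ℝ)) (ho : ∀ x, 0 ≤ o x ∧ o x ≤ 1) (hom : 0 < mn τ φ o) :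
    ∃ (y : L) (z : Q), pr (star y * y) = pr (star Y * Y) ∧
      pr y = pr (Φ (cxx o)) * pr (cfc (fun t => 1 - kp e 4 t) PL) * z := by
  classical
  set δ : ℝ := mn τ φ o / 8 with hδ
  have hδ0 : 0 < δ := by positivity
  have hδm : 8 * δ = mn τ φ o := by rw [hδ]; ring
  set q := cfc (fun t => 1 - kp e 4 t) PL with hq
  set b : L := q * Φ (cxx o) * q with hb
  have hqs : star q = q := star_cfc _ _
  have hbs : star b = b := by
    rw [hb, star_mul, star_mul, hqs, ← map_star, star_cxx, mul_assoc]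
  have hPk : ∀ k, star (ev k PL) = ev k PL := fun k => by rw [← map_star, hP]
  have hbk : ∀ k, ev k b = cfc (fun t => 1 - kp e 4 t) (ev k PL) * φ (cxx o) *
      cfc (fun t => 1 - kp e 4 t) (ev k PL) := fun k => by
    rw [hb, map_mul, map_mul, hΦ, hq, SQ.ev_cfc PL hP _ q_cont k]
  have hYk : ∀ k, cfc (kp e 4) (ev k PL) * star (ev k Y) = star (ev k Y) := fun k => by
    rw [← SQ.ev_cfc PL hP _ (kp_cont _ _) k, ← map_star, ← map_mul, hYz]
  -- the elements
  have hy : ∀ k, ∃ y : B, ‖y‖ ≤ 2 ∧ (∃ v, y = cfc (fun t : ℝ => √(max 0 (t - δ))) (ev k b) * v) ∧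
      ((τ (cfc (kp e 4) (ev k PL))).re < 2 * δ →
        ‖star y * y - star (ev k Y) * ev k Y‖ ≤ 1 / ((k : ℝ) + 1)) := by
    intro k
    by_cases hk : (τ (cfc (kp e 4) (ev k PL))).re < 2 * δ
    · obtain ⟨v, hv⟩ := absorb1 hτ hc φ (ev k PL) (hPk k) e (ev k Y) (hYk k) o ho δ hδ0 hδm hk
        (1 / ((k : ℝ) + 1)) (by positivity) (ev k b) (hbk k)
      have e1 : star (cfc (fun t : ℝ => √(max 0 (t - δ))) (ev k b) * star v) *
          (cfc (fun t : ℝ => √(max 0 (t - δ))) (ev k b) * star v) =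
          v * cfc (fun t : ℝ => max 0 (t - δ)) (ev k b) * star v := by
        rw [star_mul, star_star, star_cfc]
        have e2 : cfc (fun t : ℝ => max 0 (t - δ)) (ev k b) =
            cfc (fun t : ℝ => √(max 0 (t - δ))) (ev k b) *
              cfc (fun t : ℝ => √(max 0 (t - δ))) (ev k b) := by
          rw [cmul _ _ _ (by fun_prop) (by fun_prop)]
          congr 1
          funext t
          exact (Real.mul_self_sqrt (le_max_left _ _)).symm
        rw [e2]
        simp only [mul_assoc]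
      refine ⟨cfc (fun t : ℝ => √(max 0 (t - δ))) (ev k b) * star v, ?_, ⟨star v, rfl⟩, ?_⟩
      · have e2 : ‖v * cfc (fun t : ℝ => max 0 (t - δ)) (ev k b) * star v‖ ≤ 2 := by
          calc ‖v * cfc (fun t : ℝ => max 0 (t - δ)) (ev k b) * star v‖ =
                ‖(v * cfc (fun t : ℝ => max 0 (t - δ)) (ev k b) * star v -
                  star (ev k Y) * ev k Y) + star (ev k Y) * ev k Y‖ := by rw [sub_add_cancel]
            _ ≤ _ := norm_add_le _ _
            _ ≤ 1 + 1 := by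
                gcongr
                · refine hv.le.trans ?_
                  rw [div_le_one (by positivity)]
                  have : (0 : ℝ) ≤ k := Nat.cast_nonneg k
                  linarith
                · rw [CStarRing.norm_star_mul_self]
                  exact mul_le_one₀ (hY1 k) (norm_nonneg _) (hY1 k)
            _ = 2 := by norm_num
        rw [← e1, CStarRing.norm_star_mul_self] at e2
        nlinarith [norm_nonneg (cfc (fun t : ℝ => √(max 0 (t - δ))) (ev k b) * star v)]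
      · intro _
        rw [e1]
        exact hv.le
    · exact ⟨0, by simp, ⟨0, by simp⟩, fun h => absurd h hk⟩
  choose y hy1 hy2 hy3 using hy
  choose v hv using hy2
  obtain ⟨yL, hyL⟩ := hSQ.lf y ⟨2, hy1⟩
  have hH : Continuous fun t : ℝ => 1 / max t δ :=
    continuous_const.div (by fun_prop) fun t => (lt_of_lt_of_le hδ0 (le_max_right _ _)).ne'
  have e1 : b * cfc (fun t : ℝ => 1 / max t δ) b * yL = yL := by
    refine hSQ.ext _ _ fun k => ?_
    have hbks : star (ev k b) = ev k b := by rw [← map_star, hbs]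
    rw [map_mul, map_mul, SQ.ev_cfc b hbs _ hH k, hyL, hv k, ← mul_assoc]
    congr 1
    rw [self_mul_cfc _ hbks _ hH, cmul _ _ _ (by
      exact continuous_id.mul hH) (by fun_prop)]
    congr 1
    funext t
    rcases le_total t δ with h | h
    · rw [max_eq_left (by linarith : t - δ ≤ 0), Real.sqrt_zero, mul_zero]
    · have : t ≠ 0 := (lt_of_lt_of_le hδ0 h).ne'
      rw [max_eq_left h, mul_one_div_cancel this, one_mul]
  refine ⟨yL, pr q * pr (cfc (fun t : ℝ => 1 / max t δ) b) * pr yL, ?_, ?_⟩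
  · rw [← sub_eq_zero, ← map_sub, ← norm_le_zero_iff]
    refine le_of_forall_pos_le_add fun r hr => ?_
    rw [zero_add]
    refine hSQ.le _ _ hr.le ?_
    have h1 : ∀ᶠ k : ℕ in Filter.atTop, 1 / ((k : ℝ) + 1) < r :=
      tendsto_one_div_add_atTop_nhds_zero_nat.eventually (gt_mem_nhds hr)
    filter_upwards [h1, hκ (2 * δ) (by positivity)] with k hk1 hk2
    rw [map_sub, map_mul, map_mul, map_star, map_star, hyL]
    exact (hy3 k hk2).trans hk1.le
  · have h1 := congrArg pr e1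
    have h3 : pr b = pr q * pr (Φ (cxx o)) * pr q := by rw [hb, map_mul, map_mul]
    rw [map_mul, map_mul, h3] at h1
    have h2 := (hcomm (cxx o)).eq
    conv_lhs => rw [← h1]
    rw [← h2]
    simp only [mul_assoc]

end seq

end Pool.Agent.H85.UQ
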