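import Pool.Agent.H85.UQ.Cells
import Pool.Graph.R_pool_sql_team_seeded_63374d34.N300.UN.Basic

/-! Disjoint bumps near given points. -/

set_option autoImplicit false

noncomputable section

namespace Pool.Agent.H85.UQ

open Pool.Agent.N300.UN

section

variable {X : Type} [MetricSpace X]

theorem distinct_points (hinf : ∀ (p : X) (r : ℝ), 0 < r → (Metric.ball p r).Infinite)
    {ι : Type} (Λ : ι → X) (ω : ℝ) (hω : 0 < ω) (s : Finset ι) :
    ∃ x : ι → X, (∀ a ∈ s, dist (x a) (Λ a) < ω) ∧ ∀ a ∈ s, ∀ b ∈ s, x a = x b → a = b := by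
  classical
  induction s using Finset.induction_on with
  | empty => exact ⟨Λ, by simp, by simp⟩
  | insert i s hi ih =>
    obtain ⟨x, h1, h2⟩ := ih
    obtain ⟨y, hy1, hy2⟩ := (hinf (Λ i) ω hω).exists_notMem_finset (s.image x)
    have hne : ∀ a ∈ s, a ≠ i := fun a ha h => hi (h ▸ ha)
    refine ⟨Function.update x i y, ?_, ?_⟩
    · intro a ha
      rcases Finset.mem_insert.1 ha with rfl | ha
      · rw [Function.update_self]; exact hy1
      · rw [Function.update_of_ne (hne a ha)]; exact h1 a ha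
    · intro a ha b hb hab
      rcases Finset.mem_insert.1 ha with h3 | ha'
      · rcases Finset.mem_insert.1 hb with h4 | hb'
        · rw [h3, h4]
        · exfalso
          rw [h3, Function.update_self, Function.update_of_ne (hne b hb')] at hab
          exact hy2 (Finset.mem_image.2 ⟨b, hb', hab.symm⟩)
      · rcases Finset.mem_insert.1 hb with h4 | hb'
        · exfalso
          rw [h4, Function.update_self, Function.update_of_ne (hne a ha')] at hab
          exact hy2 (Finset.mem_image.2 ⟨a, ha', hab⟩)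
        · rw [Function.update_of_ne (hne a ha'), Function.update_of_ne (hne b hb')] at hab
          exact h2 a ha' b hb' hab

theorem bumps (hinf : ∀ (p : X) (r : ℝ), 0 < r → (Metric.ball p r).Infinite)
    {ι : Type} [Fintype ι] (Λ : ι → X) (ω : ℝ) (hω : 0 < ω) :
    ∃ o : ι → C(X, ℝ), (∀ a x, 0 ≤ o a x ∧ o a x ≤ 1) ∧ (∀ a, ∃ x, o a x ≠ 0) ∧
      (∀ a b, a ≠ b → o a * o b = 0) ∧ ∀ a x, o a x ≠ 0 → dist x (Λ a) < ω := by
  classical
  obtain ⟨x, h1, h2⟩ := distinct_points hinf Λ (ω / 2) (by positivity) Finset.univ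
  have h3 : ∀ᶠ ρ : ℝ in nhdsWithin 0 (Set.Ioi 0), ∀ a b : ι, a ≠ b → 2 * ρ < dist (x a) (x b) := by
    refine Filter.eventually_all.2 fun a => Filter.eventually_all.2 fun b => ?_
    by_cases hab : a = b
    · exact Filter.Eventually.of_forall fun ρ h => absurd hab h
    · have h4 : 0 < dist (x a) (x b) := dist_pos.2 fun h =>
        hab (h2 a (Finset.mem_univ _) b (Finset.mem_univ _) h)
      filter_upwards [Ioo_mem_nhdsGT (show 0 < dist (x a) (x b) / 2 by positivity)] with ρ hρ _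
      have := hρ.2
      linarith
  obtain ⟨ρ, hρ1, hρ2⟩ := (h3.and (Ioo_mem_nhdsGT (show 0 < ω / 2 by positivity))).exists
  have hρ0 : 0 < ρ := hρ2.1
  have hρω : ρ < ω / 2 := hρ2.2
  refine ⟨fun a => ⟨fun y => tent 0 ρ (dist y (x a)), (tent_cont _ _).comp (by fun_prop)⟩,
    ?_, ?_, ?_, ?_⟩
  · exact fun a y => ⟨tent_nonneg _ _ _, tent_le_one _ _ _ hρ0⟩
  · intro a
    refine ⟨x a, ?_⟩
    change tent 0 ρ (dist (x a) (x a)) ≠ 0
    unfold tent
    rw [dist_self]
    norm_num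
  · intro a b hab
    ext y
    change tent 0 ρ (dist y (x a)) * tent 0 ρ (dist y (x b)) = 0
    by_contra hcon
    have e1 := tent_ne _ _ _ hρ0 (left_ne_zero_of_mul hcon)
    have e2 := tent_ne _ _ _ hρ0 (right_ne_zero_of_mul hcon)
    rw [sub_zero, abs_of_nonneg dist_nonneg] at e1 e2
    have e3 := hρ1 a b hab
    have e4 := dist_triangle_left (x a) (x b) y
    linarith
  · intro a y hy
    have e1 := tent_ne _ _ _ hρ0 hy
    rw [sub_zero, abs_of_nonneg dist_nonneg] at e1
    have e2 := dist_triangle y (x a) (Λ a)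
    have e3 := h1 a (Finset.mem_univ _)
    linarith

end

theorem cube_inf {n : ℕ} (hn : 1 ≤ n) (p : Cube n) (r : ℝ) (hr : 0 < r) :
    (Metric.ball p r).Infinite := by
  haveI : Nonempty (Fin n) := ⟨⟨0, hn⟩⟩
  exact infinite_of_mem_nhds p (Metric.ball_mem_nhds p hr)

theorem cube_far {n : ℕ} (hn : 1 ≤ n) (ω : ℝ) (hω : ω ≤ 1 / 4) (p : Cube n) :
    ∃ x : Cube n, ω ≤ dist x p := by
  rcases le_total (p ⟨0, hn⟩ : ℝ) (1 / 2) with h | h
  · refine ⟨fun _ => 1, ?_⟩
    have h1 := dist_le_pi_dist (fun _ => 1 : Cube n) p ⟨0, hn⟩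
    rw [Subtype.dist_eq, Real.dist_eq] at h1
    have h2 : ((1 : unitInterval) : ℝ) - p ⟨0, hn⟩ ≤ |((1 : unitInterval) : ℝ) - p ⟨0, hn⟩| :=
      le_abs_self _
    rw [Set.Icc.coe_one] at h1 h2
    linarith
  · refine ⟨fun _ => 0, ?_⟩
    have h1 := dist_le_pi_dist (fun _ => 0 : Cube n) p ⟨0, hn⟩
    rw [Subtype.dist_eq, Real.dist_eq] at h1
    have h2 : -(((0 : unitInterval) : ℝ) - p ⟨0, hn⟩) ≤ |((0 : unitInterval) : ℝ) - p ⟨0, hn⟩| :=
      neg_le_abs _
    rw [Set.Icc.coe_zero] at h1 h2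
    linarith

instance {n : ℕ} : PreconnectedSpace (Cube n) := inferInstance

end Pool.Agent.H85.UQ
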