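import Pool.Graph.R_pool_sql_team_seeded_63374d34.N194.UN.TT

/-! Almost partitions of a compact metric space into small pieces, with respect to a positive
functional. -/

set_option autoImplicit false

noncomputable section

namespace Pool.Agent.H85.UQ

open Finset

section

variable {X : Type} [MetricSpace X] [CompactSpace X]

/-- monotone additive functionals on the real continuous functions, normalised -/
structure Mean (X : Type) [TopologicalSpace X] (m : C(X, ℝ) → ℝ) : Prop where
  add : ∀ f g, m (f + g) = m f + m g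
  mono : ∀ f g : C(X, ℝ), (∀ x, f x ≤ g x) → m f ≤ m g
  one : m 1 = 1

variable {m : C(X, ℝ) → ℝ}

omit [CompactSpace X] in
theorem Mean.zero (hm : Mean X m) : m 0 = 0 := by
  have h := hm.add 0 0
  rw [add_zero] at h
  linarith

omit [CompactSpace X] in
theorem Mean.sum (hm : Mean X m) {ι : Type} (s : Finset ι) (f : ι → C(X, ℝ)) :
    m (∑ i ∈ s, f i) = ∑ i ∈ s, m (f i) := by
  classical
  induction s using Finset.induction_on with
  | empty => simp [hm.zero]
  | insert a s ha ih => rw [sum_insert ha, sum_insert ha, hm.add, ih]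

/-- the tent function -/
def tent (r ρ t : ℝ) : ℝ := max 0 (1 - |t - r| / ρ)

theorem tent_cont (r ρ : ℝ) : Continuous (tent r ρ) := by
  unfold tent; fun_prop

theorem tent_nonneg (r ρ t : ℝ) : 0 ≤ tent r ρ t := le_max_left _ _

theorem tent_le_one (r ρ t : ℝ) (hρ : 0 < ρ) : tent r ρ t ≤ 1 := by
  unfold tent
  refine max_le zero_le_one ?_
  have : 0 ≤ |t - r| / ρ := by positivity
  linarith

theorem tent_ne (r ρ t : ℝ) (hρ : 0 < ρ) (h : tent r ρ t ≠ 0) : |t - r| < ρ := by
  unfold tent at h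
  by_contra hc
  push Not at hc
  apply h
  have : 1 ≤ |t - r| / ρ := by rwa [one_le_div hρ]
  exact max_eq_left (by linarith)

omit [CompactSpace X] in
/-- a level with small mass -/
theorem level (hm : Mean X m) (D : C(X, ℝ)) (a b ε : ℝ) (hab : a < b) (hε : 0 < ε) :
    ∃ r ρ : ℝ, 0 < ρ ∧ a ≤ r - ρ ∧ r + ρ ≤ b ∧
      m ⟨fun x => tent r ρ (D x), (tent_cont r ρ).comp D.continuous⟩ ≤ ε := by
  obtain ⟨K, hK⟩ := exists_nat_gt (1 / ε)
  have hK0 : (0 : ℝ) < K := lt_trans (by positivity) hK
  have hKε : 1 < K * ε := by rwa [div_lt_iff₀ hε] at hK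
  set ρ : ℝ := (b - a) / (2 * K) with hρ
  have hρ0 : 0 < ρ := by
    have : 0 < b - a := by linarith
    positivity
  have hρ1 : 2 * K * ρ = b - a := by rw [hρ]; field_simp
  set r : ℕ → ℝ := fun j => a + (2 * j + 1) * ρ with hr
  by_contra hcon
  push Not at hcon
  set T : ℕ → C(X, ℝ) := fun j => ⟨fun x => tent (r j) ρ (D x),
    (tent_cont (r j) ρ).comp D.continuous⟩ with hT
  have h1 : ∀ j ∈ range K, ε < m (T j) := by
    intro j hj
    have hj' : (j : ℝ) + 1 ≤ K := by exact_mod_cast mem_range.1 hj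
    refine hcon (r j) ρ hρ0 ?_ ?_
    · simp only [hr]
      have : 0 ≤ (j : ℝ) * ρ := by positivity
      linarith
    · simp only [hr]
      have : ((j : ℝ) + 1) * ρ ≤ K * ρ := by gcongr
      linarith
  have h2 : (K : ℝ) * ε ≤ ∑ j ∈ range K, m (T j) := by
    calc (K : ℝ) * ε = ∑ _j ∈ range K, ε := by simp
      _ ≤ _ := sum_le_sum fun j hj => (h1 j hj).le
  rw [← hm.sum] at h2
  have h3 : m (∑ j ∈ range K, T j) ≤ 1 := by
    rw [← hm.one]
    refine hm.mono _ _ fun x => ?_
    have e1 : (∑ j ∈ range K, T j) x = ∑ j ∈ range K, tent (r j) ρ (D x) := by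
      rw [ContinuousMap.sum_apply]; rfl
    rw [e1, ContinuousMap.one_apply]
    by_cases h0 : ∃ j ∈ range K, tent (r j) ρ (D x) ≠ 0
    · obtain ⟨j, hj, hjn⟩ := h0
      rw [sum_eq_single_of_mem j hj]
      · exact tent_le_one _ _ _ hρ0
      · intro i _ hij
        by_contra hi
        have a1 := tent_ne _ _ _ hρ0 hjn
        have a2 := tent_ne _ _ _ hρ0 hi
        have a3 : |r i - r j| < 2 * ρ := by
          have : r i - r j = (D x - r j) - (D x - r i) := by ring
          rw [this]
          refine (abs_sub _ _).trans_lt ?_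
          linarith
        have a4 : r i - r j = 2 * ρ * ((i : ℝ) - j) := by simp only [hr]; ring
        rw [a4, abs_mul, abs_of_pos (by positivity : 0 < 2 * ρ)] at a3
        have a5 : (1 : ℝ) ≤ |(i : ℝ) - j| := by
          have : (1 : ℤ) ≤ |(i : ℤ) - j| := by
            refine Int.one_le_abs ?_
            rw [sub_ne_zero]
            exact_mod_cast hij
          exact_mod_cast this
        nlinarith
    · push Not at h0
      rw [sum_eq_zero fun j hj => h0 j hj]
      exact zero_le_one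
  linarith

/-- inside and outside functions -/
def inn (r ρ t : ℝ) : ℝ := max 0 (min 1 ((r - t) / ρ))

/-- outside function -/
def out (r ρ t : ℝ) : ℝ := max 0 (min 1 ((t - r) / ρ))

theorem inn_cont (r ρ : ℝ) : Continuous (inn r ρ) := by unfold inn; fun_prop

theorem out_cont (r ρ : ℝ) : Continuous (out r ρ) := by unfold out; fun_prop

theorem inn_01 (r ρ t : ℝ) : 0 ≤ inn r ρ t ∧ inn r ρ t ≤ 1 :=
  ⟨le_max_left _ _, max_le zero_le_one (min_le_left _ _)⟩

theorem out_01 (r ρ t : ℝ) : 0 ≤ out r ρ t ∧ out r ρ t ≤ 1 :=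
  ⟨le_max_left _ _, max_le zero_le_one (min_le_left _ _)⟩

theorem inn_ne (r ρ t : ℝ) (hρ : 0 < ρ) (h : inn r ρ t ≠ 0) : t < r := by
  unfold inn at h
  by_contra hc
  push Not at hc
  apply h
  have : (r - t) / ρ ≤ 0 := div_nonpos_of_nonpos_of_nonneg (by linarith) hρ.le
  exact max_eq_left ((min_le_right _ _).trans this)

theorem out_zero (r ρ t : ℝ) (hρ : 0 < ρ) (h : t ≤ r) : out r ρ t = 0 := by
  unfold out
  have : (t - r) / ρ ≤ 0 := div_nonpos_of_nonpos_of_nonneg (by linarith) hρ.le
  exact max_eq_left ((min_le_right _ _).trans this)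

theorem inn_mul_out (r ρ t : ℝ) (hρ : 0 < ρ) : inn r ρ t * out r ρ t = 0 := by
  by_cases h : inn r ρ t = 0
  · rw [h, zero_mul]
  · rw [out_zero r ρ t hρ (inn_ne r ρ t hρ h).le, mul_zero]

theorem inn_add_out (r ρ t : ℝ) (hρ : 0 < ρ) : inn r ρ t + tent r ρ t + out r ρ t = 1 := by
  unfold inn out tent
  rcases le_total t r with h | h
  · have e1 : (t - r) / ρ ≤ 0 := div_nonpos_of_nonpos_of_nonneg (by linarith) hρ.le
    rw [max_eq_left ((min_le_right _ _).trans e1 : min 1 ((t - r) / ρ) ≤ 0),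
      abs_of_nonpos (by linarith : t - r ≤ 0)]
    have e2 : -(t - r) / ρ = (r - t) / ρ := by ring
    have e3 : 0 ≤ (r - t) / ρ := div_nonneg (by linarith) hρ.le
    rw [e2, add_zero, max_eq_right (le_min zero_le_one e3)]
    rcases le_total ((r - t) / ρ) 1 with h1 | h1
    · rw [min_eq_right h1, max_eq_right (by linarith)]; ring
    · rw [min_eq_left h1, max_eq_left (by linarith)]; ring
  · have e1 : (r - t) / ρ ≤ 0 := div_nonpos_of_nonpos_of_nonneg (by linarith) hρ.le
    rw [max_eq_left ((min_le_right _ _).trans e1 : min 1 ((r - t) / ρ) ≤ 0),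
      abs_of_nonneg (by linarith : 0 ≤ t - r)]
    have e3 : 0 ≤ (t - r) / ρ := div_nonneg (by linarith) hρ.le
    rw [zero_add, max_eq_right (le_min zero_le_one e3)]
    rcases le_total ((t - r) / ρ) 1 with h1 | h1
    · rw [min_eq_right h1, max_eq_right (by linarith)]; ring
    · rw [min_eq_left h1, max_eq_left (by linarith)]; ring

/-- almost partitions into small pieces -/
theorem cells (hm : Mean X m) (ω ε : ℝ) (hω : 0 < ω) (hε : 0 < ε) :
    ∃ (N : ℕ) (p : ℕ → X) (h : ℕ → C(X, ℝ)), (∀ j x, 0 ≤ h j x ∧ h j x ≤ 1) ∧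
      (∀ i j, i ≠ j → h i * h j = 0) ∧ (∀ j x, h j x ≠ 0 → dist x (p j) < ω) ∧
      m (1 - ∑ j ∈ range N, h j) ≤ ε := by
  classical
  obtain ⟨N0, p0, h0, -, hs0, hd0, -⟩ := Pool.Agent.N194.UN.t_POU X (ω / 2) (by positivity)
  -- the space is nonempty
  by_cases hX : Nonempty X
  swap
  · exfalso
    have : (1 : C(X, ℝ)) = 0 := by
      ext x
      exact absurd ⟨x⟩ hX
    have h1 := hm.one
    rw [this, hm.zero] at h1
    exact zero_ne_one h1
  have hcov : ∀ x, ∃ j : Fin N0, dist x (p0 j) < ω / 2 := by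
    intro x
    by_contra hcon
    push Not at hcon
    have h1 : ∀ j, h0 j x = 0 := by
      intro j
      by_contra hj
      exact absurd (hd0 j x hj) (not_lt.2 (hcon j))
    have h2 := hs0 x
    simp [h1] at h2
  obtain ⟨x0⟩ := hX
  set p : ℕ → X := fun j => if hj : j < N0 then p0 ⟨j, hj⟩ else x0 with hp
  have hcov' : ∀ x, ∃ j ∈ range N0, dist x (p j) < ω / 2 := by
    intro x
    obtain ⟨j, hj⟩ := hcov x
    refine ⟨j, mem_range.2 j.2, ?_⟩
    simp only [hp, dif_pos j.2]
    exact hj
  set D : ℕ → C(X, ℝ) := fun j => ⟨fun x => dist x (p j), by fun_prop⟩ with hD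
  have hlev := fun j => level hm (D j) (ω / 2) ω (ε / (N0 + 1)) (by linarith) (by positivity)
  choose r ρ hρ hr1 hr2 hr3 using hlev
  set T : ℕ → C(X, ℝ) := fun j => ⟨fun x => tent (r j) (ρ j) (D j x),
    (tent_cont _ _).comp (D j).continuous⟩ with hT
  set I : ℕ → C(X, ℝ) := fun j => ⟨fun x => inn (r j) (ρ j) (D j x),
    (inn_cont _ _).comp (D j).continuous⟩ with hI
  set O : ℕ → C(X, ℝ) := fun j => ⟨fun x => out (r j) (ρ j) (D j x),
    (out_cont _ _).comp (D j).continuous⟩ with hO
  have hIO : ∀ j, I j * O j = 0 := fun j => by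
    ext x
    exact inn_mul_out _ _ _ (hρ j)
  have hITO : ∀ j, I j + T j + O j = 1 := fun j => by
    ext x
    exact inn_add_out _ _ _ (hρ j)
  have hO01 : ∀ n x, 0 ≤ (∏ i ∈ range n, O i : C(X, ℝ)) x ∧
      (∏ i ∈ range n, O i : C(X, ℝ)) x ≤ 1 := by
    intro n x
    rw [ContinuousMap.prod_apply]
    exact ⟨prod_nonneg fun i _ => (out_01 _ _ _).1,
      prod_le_one (fun i _ => (out_01 _ _ _).1) fun i _ => (out_01 _ _ _).2⟩
  refine ⟨N0, p, fun j => I j * ∏ i ∈ range j, O i, ?_, ?_, ?_, ?_⟩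
  · intro j x
    rw [ContinuousMap.mul_apply]
    have e1 := hO01 j x
    have e2 : 0 ≤ I j x ∧ I j x ≤ 1 := inn_01 _ _ _
    exact ⟨mul_nonneg e2.1 e1.1, mul_le_one₀ e2.2 e1.1 e1.2⟩
  · have key : ∀ i j, i < j → (I i * ∏ k ∈ range i, O k) * (I j * ∏ k ∈ range j, O k) = 0 := by
      intro i j hij
      rw [← mul_prod_erase (range j) O (mem_range.2 hij)]
      calc _ = (I i * O i) * ((∏ k ∈ range i, O k) * I j * ∏ k ∈ (range j).erase i, O k) := by
            ring
        _ = 0 := by rw [hIO, zero_mul]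
    intro i j hij
    rcases lt_or_gt_of_ne hij with h | h
    · exact key i j h
    · rw [mul_comm]; exact key j i h
  · intro j x hx
    rw [ContinuousMap.mul_apply] at hx
    have e1 : inn (r j) (ρ j) (dist x (p j)) ≠ 0 := left_ne_zero_of_mul hx
    have e2 := inn_ne _ _ _ (hρ j) e1
    have e3 := hr2 j
    have e4 := hρ j
    linarith
  · -- the masses
    have hsum : ∀ n, ∑ j ∈ range n, (I j + T j) * ∏ i ∈ range j, O i + ∏ i ∈ range n, O i =
        (1 : C(X, ℝ)) := by
      intro n
      induction n with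
      | zero => simp
      | succ n ih =>
        rw [sum_range_succ, prod_range_succ]
        calc _ = ∑ j ∈ range n, (I j + T j) * ∏ i ∈ range j, O i +
              (I n + T n + O n) * ∏ i ∈ range n, O i := by ring
          _ = 1 := by rw [hITO, one_mul, ih]
    have hzero : (∏ i ∈ range N0, O i : C(X, ℝ)) = 0 := by
      ext x
      obtain ⟨j, hj, hjx⟩ := hcov' x
      rw [ContinuousMap.prod_apply, ContinuousMap.zero_apply]
      refine prod_eq_zero hj ?_
      refine out_zero _ _ _ (hρ j) ?_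
      change dist x (p j) ≤ r j
      have e1 := hr1 j
      have e2 := hρ j
      linarith
    have h1 := hsum N0
    rw [hzero, add_zero] at h1
    have h2 : (1 : C(X, ℝ)) - ∑ j ∈ range N0, I j * ∏ i ∈ range j, O i =
        ∑ j ∈ range N0, T j * ∏ i ∈ range j, O i := by
      rw [← h1, ← sum_sub_distrib]
      refine sum_congr rfl fun j _ => ?_
      ring
    rw [h2, hm.sum]
    calc ∑ j ∈ range N0, m (T j * ∏ i ∈ range j, O i) ≤ ∑ _j ∈ range N0, ε / (N0 + 1) := by
          refine sum_le_sum fun j _ => ?_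
          refine le_trans (hm.mono _ _ fun x => ?_) (hr3 j)
          rw [ContinuousMap.mul_apply]
          have e1 := hO01 j x
          have e2 : 0 ≤ T j x := tent_nonneg _ _ _
          exact mul_le_of_le_one_right e2 e1.2
      _ = N0 * (ε / (N0 + 1)) := by simp
      _ ≤ ε := by
          rw [mul_div_assoc', div_le_iff₀ (by positivity)]
          nlinarith
end

end Pool.Agent.H85.UQ
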