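import Pool.Agent.H85.UQ.Inter
import Pool.Graph.R_pool_sql_team_seeded_63374d34.N300.UN.All

/-! The approximate data, from comparison. -/

set_option autoImplicit false

open scoped ComplexConjugate

noncomputable section

namespace Pool.Agent.H85.UQ

open Pool.Agent.H923R2.FP Pool.Agent.H923R2.FZ Pool.Agent.N300.UN
open Pool.Agent.N300.UN.T_DATA

theorem cxx_zero {X : Type} [TopologicalSpace X] : cxx (0 : C(X, ℝ)) = 0 := by
  ext x; simp [cxx_apply]

set_option maxHeartbeats 4000000 in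
theorem data2 {A : Type} [CStarAlgebra A] (τ : A →ₗ[ℂ] ℂ) (hτ : FTS τ) (hped : PED A)
    (hc : CmpT τ) (n : ℕ) (hn : 1 ≤ n) (φ ψ : C(Cube n, ℂ) →⋆ₐ[ℂ] A)
    (heq : ∀ f, τ (φ f) = τ (ψ f)) (hinj : Function.Injective φ) (m : ℕ) (hm : 1 ≤ m)
    (δ : ℝ) (hδ : 0 < δ) :
  ∃ (w : unitary A) (P : A) (e : ℝ) (R : ℕ → A), 0 < e ∧ star P = P ∧ ‖P‖ ≤ 4 ∧
    (∀ i, ‖R i‖ ≤ 2) ∧
    (∀ l : Fin n, ∀ r : ℕ, r = 1 ∨ r = 2 ∨ r = 3 →
      ‖φ (co l) * cfc (kp e r) P - cfc (kp e r) P * φ (co l)‖ ≤ δ ∧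
      ‖(w : A) * ψ (co l) * star (w : A) * cfc (kp e r) P -
        cfc (kp e r) P * ((w : A) * ψ (co l) * star (w : A))‖ ≤ δ) ∧
    (∀ l : Fin n, ‖(1 - cfc (kp e 1) P) *
      (φ (co l) - (w : A) * ψ (co l) * star (w : A))‖ ≤ δ) ∧
    (∀ i, 1 ≤ i → i ≤ 2 * m → ‖cfc (kp e 3) P * R i‖ ≤ δ) ∧
    (∀ i j, 1 ≤ i → i ≤ 2 * m → 1 ≤ j → j ≤ 2 * m →
      ‖star (R i) * R j - if i = j then cfc (kp e 3) P * cfc (kp e 3) P else 0‖ ≤ δ) ∧
    ∀ (i : ℕ) (l : Fin n), 1 ≤ i → i ≤ 2 * m → ‖φ (co l) * R i -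
      R i * site m (cfc (kp e 1) P) (φ (co l))
        ((w : A) * ψ (co l) * star (w : A)) i‖ ≤ δ := by
  classical
  have hA := Pool.Agent.N300.UN.All.alg1
  have hPU := Pool.Agent.N300.UN.All.pou
  have hL := Pool.Agent.N300.UN.All.lawm
  have hNB : Nontrivial A := ⟨⟨1, 0, fun h => by
    have h1 := hτ.one
    rw [h, map_zero] at h1
    exact zero_ne_one h1⟩⟩
  set ω : ℝ := δ / 8 with hω
  have hω0 : 0 < ω := by positivity
  obtain ⟨N, p, h, h01, hsum, hdist, hpos⟩ := hPU (Cube n) ω hω0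
  obtain ⟨N', sp, h', h01', hsum', hdist', -⟩ := hPU unitInterval ω hω0
  have hpar : Par (Cube n) N N' h h' sp ω := ⟨h01, hsum, h01', hsum', hdist'⟩
  set e : ℝ := 1 / 20 with he'
  have he : 0 < e := by rw [he']; norm_num
  -- the intertwiners
  have hk0 : ∀ k : ℕ, (0 : ℝ) < 1 / ((k : ℝ) + 1) := fun k => by positivity
  have hk1 : ∀ k : ℕ, 1 / ((k : ℝ) + 1) ≤ 1 := fun k => by
    rw [div_le_one (by positivity)]
    have : (0 : ℝ) ≤ k := Nat.cast_nonneg k
    linarith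
  have hTk := fun k : ℕ => lemA τ hτ hc φ ψ hinj heq (1 / ((k : ℝ) + 1) / 4) (1 / ((k : ℝ) + 1))
    (by have := hk0 k; positivity) (hk0 k) (hk1 k)
    (cube_far hn _ (by have := hk1 k; linarith))
  choose T Sf hTn hS01 hTS hTm hTi using hTk
  have hPk := fun k : ℕ => hped (T k) e he
  choose w0 hw0 using hPk
  obtain ⟨L, Q, _, _, ev, pr, lf, ext, hlt, hle⟩ := Pool.Agent.N300.UN.All.seq A
  have hSQ : SQ ev pr := ⟨lf, ext, hlt, hle⟩
  obtain ⟨TL, hTL⟩ := lf (fun k => T k) ⟨2, fun k => hTn k⟩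
  obtain ⟨WL, hWL⟩ := lf (fun k => (w0 k : A)) ⟨1, fun k => (CStarRing.norm_coe_unitary _).le⟩
  obtain ⟨Φ, hΦk⟩ := hSQ.hom (fun _ => φ)
  obtain ⟨Ψ, hΨk⟩ := hSQ.hom (fun _ => ψ)
  obtain ⟨Bh, hBk⟩ := hSQ.hom (fun k => ((Unitary.conjStarAlgAut ℂ A (w0 k) : A ≃⋆ₐ[ℂ] A) :
    A →⋆ₐ[ℂ] A).comp ψ)
  have hBk' : ∀ f k, ev k (Bh f) = (w0 k : A) * ψ f * star (w0 k : A) := fun f k => by
    rw [hBk f k]
    change (Unitary.conjStarAlgAut ℂ A (w0 k)) (ψ f) = _
    rw [Unitary.conjStarAlgAut_apply]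
  have hWW : star WL * WL = 1 := ext _ _ fun k => by
    rw [map_mul, map_star, hWL, map_one]; exact Unitary.coe_star_mul_self _
  have hWW' : WL * star WL = 1 := ext _ _ fun k => by
    rw [map_mul, map_star, hWL, map_one]; exact Unitary.coe_mul_star_self _
  set WQ : unitary Q := ⟨pr WL, by
    rw [Unitary.mem_iff, ← map_star, ← map_mul, ← map_mul, hWW, hWW', map_one]
    exact ⟨rfl, rfl⟩⟩ with hWQ
  have hWQc : (WQ : Q) = pr WL := rfl
  have hBW : ∀ f, Bh f = WL * Ψ f * star WL := fun f => ext _ _ fun k => by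
    rw [hBk', map_mul, map_mul, map_star, hWL, hΨk]
  set PL : L := TL * star TL with hPL
  have hPLs : star PL = PL := by rw [hPL, star_mul, star_star]
  have hPQ : pr PL = pr TL * star (pr TL) := by rw [hPL, map_mul, map_star]
  have hPLk : ∀ k, ev k PL = T k * star (T k) := fun k => by
    rw [hPL, map_mul, map_star, hTL]
  have hTTs' : ∀ k, star (star (T k) * T k) = star (T k) * T k := fun k => by
    rw [star_mul, star_star]
  have hCs : star (star TL * TL) = star TL * TL := by rw [star_mul, star_star]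
  -- polar decomposition in the quotient
  have hpol : ∀ G : ℝ → ℝ, Continuous G → (∀ t, t ≤ e → G t = 0) →
      (WQ : Q) * cfc G (star (pr TL) * pr TL) =
        pr TL * cfc (fun t => G t / √t) (star (pr TL) * pr TL) := by
    intro G hG hG0
    have hdc := div_cont e he G hG hG0
    have e1 : WL * cfc G (star TL * TL) = TL * cfc (fun t => G t / √t) (star TL * TL) := by
      refine ext _ _ fun k => ?_
      have e2 : ev k (star TL * TL) = star (T k) * T k := by
        rw [map_mul, map_star, hTL]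
      rw [map_mul, map_mul, SQ.ev_cfc _ hCs G hG k, SQ.ev_cfc _ hCs _ hdc k, e2, hWL, hTL,
        hw0 k G hG hG0]
    have e3 := congrArg pr e1
    rw [map_mul, map_mul, SQ.pr_cfc _ hCs G hG, SQ.pr_cfc _ hCs _ hdc, map_mul, map_star] at e3
    rw [hWQc]
    exact e3
  have hTf : ∀ f, pr (Φ f) * pr TL = pr TL * pr (Ψ f) := by
    intro f
    rw [← map_mul, ← map_mul, ← sub_eq_zero, ← map_sub, ← norm_le_zero_iff]
    refine le_of_forall_pos_le_add fun r hr => ?_
    rw [zero_add]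
    refine hle _ _ hr.le ?_
    have huc := CompactSpace.uniformContinuous_of_continuous f.continuous
    obtain ⟨d, hd0, hd⟩ := Metric.uniformContinuous_iff.1 huc (r / 6) (by positivity)
    have hev : ∀ᶠ k : ℕ in Filter.atTop, 1 / ((k : ℝ) + 1) < d :=
      tendsto_one_div_add_atTop_nhds_zero_nat.eventually (gt_mem_nhds hd0)
    have hev2 : ∀ᶠ k : ℕ in Filter.atTop, 1 / ((k : ℝ) + 1) < r / (2 * (‖f‖ + 1)) :=
      tendsto_one_div_add_atTop_nhds_zero_nat.eventually (gt_mem_nhds (by positivity))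
    filter_upwards [hev, hev2] with k hk hk'
    have e1 : ev k (Φ f * TL - TL * Ψ f) = φ f * T k - T k * ψ f := by
      rw [map_sub, map_mul, map_mul, hΦk, hΨk, hTL]
    rw [e1]
    have e2 := hTi k f (r / 6) (by positivity) (fun x y hxy => by
      have h1 := hk0 k
      have := hd (hxy.trans (by linarith))
      rw [dist_eq_norm] at this
      exact this.le)
    have e3 : 1 / ((k : ℝ) + 1) * ‖f‖ ≤ r / 2 := by
      have h1 : 1 / ((k : ℝ) + 1) * (‖f‖ + 1) ≤ r / (2 * (‖f‖ + 1)) * (‖f‖ + 1) := by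
        gcongr
      have h2 : r / (2 * (‖f‖ + 1)) * (‖f‖ + 1) = r / 2 := by
        field_simp
      have h3 := (hk0 k).le
      nlinarith
    linarith
  have halg := fun f : C(Cube n, ℂ) => hA Q (pr TL) WQ e he hpol (pr (Φ f)) (pr (Ψ f)) (hTf f)
    (by rw [← map_star, ← map_star, ← map_star, ← map_star, hTf])
  have hAdΦ : Adm ev pr (⊤ : StarSubalgebra ℂ A) PL e Φ := by
    refine ⟨fun f k => trivial, fun f G hG hGe => ?_⟩
    rw [hPQ]; exact ((halg f G hG).1 hGe).1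
  have hBQ : ∀ f, pr (Bh f) = (WQ : Q) * pr (Ψ f) * star (WQ : Q) := fun f => by
    rw [hBW, map_mul, map_mul, map_star, hWQc]
  have hAdB : Adm ev pr (⊤ : StarSubalgebra ℂ A) PL e Bh := by
    refine ⟨fun f k => trivial, fun f G hG hGe => ?_⟩
    rw [hPQ, hBQ]; exact ((halg f G hG).1 hGe).2
  have hAdP : AdP ev (⊤ : StarSubalgebra ℂ A) τ PL e 1 := by
    refine ⟨hPLs, fun G hG k => trivial, fun k => ?_⟩
    have h1 := (Complex.re_le_norm (τ (cfc (kp e 4) (ev k PL)))).trans (hτ.bound _)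
    exact h1.trans (norm_kp _ _ _)
  -- the trace of the complement tends to zero
  have hκ : ∀ η : ℝ, 0 < η → ∀ᶠ k in Filter.atTop, (τ (cfc (kp e 4) (ev k PL))).re < η := by
    intro η hη
    obtain ⟨SS, hSS⟩ := lf (fun k => ψ (cxx (Sf k * Sf k))) ⟨1, fun k =>
      (hom_norm ψ _).trans (norm_cxx_le _ 1 zero_le_one fun t => by
        have h1 := hS01 k t
        rw [ContinuousMap.mul_apply, abs_of_nonneg (mul_nonneg h1.1 h1.1)]
        exact mul_le_one₀ h1.2 h1.1 h1.2)⟩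
    have hSSs : star SS = SS := ext _ _ fun k => by
      rw [map_star, hSS, ← map_star, star_cxx]
    have h1 : pr (star TL * TL) = pr SS := by
      refine eq_of ev pr hle _ _ 1 fun k => ?_
      rw [map_mul, map_star, hTL, hSS, one_mul]
      exact hTS k
    have h2 : pr (cfc (kp e 4) (star TL * TL) - cfc (kp e 4) SS) = 0 := by
      rw [map_sub, SQ.pr_cfc _ hCs _ (kp_cont _ _), SQ.pr_cfc _ hSSs _ (kp_cont _ _), h1, sub_self]
    have h3 := hlt _ (η / 2) (by rw [h2, norm_zero]; positivity)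
    have h4 : ∀ᶠ k : ℕ in Filter.atTop, 1 / ((k : ℝ) + 1) < η / 2 :=
      tendsto_one_div_add_atTop_nhds_zero_nat.eventually (gt_mem_nhds (by positivity))
    filter_upwards [h3, h4] with k hk3 hk4
    rw [map_sub, SQ.ev_cfc _ hCs _ (kp_cont _ _) k, SQ.ev_cfc _ hSSs _ (kp_cont _ _) k, hSS,
      map_mul, map_star, hTL, cfc_hom_cxx ψ _ (kp_cont _ _)] at hk3
    rw [hPLk, law_star hL τ hτ _ _ (kp_cont _ _)]
    have e1 : τ (cfc (kp e 4) (star (T k) * T k)) =
        τ (cfc (kp e 4) (star (T k) * T k) - ψ (cxx (cmp _ (kp_cont e 4) (Sf k * Sf k)))) +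
          τ (ψ (cxx (cmp _ (kp_cont e 4) (Sf k * Sf k)))) := by
      rw [← map_add, sub_add_cancel]
    rw [e1, Complex.add_re]
    have e2 := ((Complex.re_le_norm _).trans (hτ.bound (cfc (kp e 4) (star (T k) * T k) -
      ψ (cxx (cmp _ (kp_cont e 4) (Sf k * Sf k)))))).trans_lt hk3
    have e3 := hTm k
    unfold mn at e3
    linarith
  -- the sites
  set I0 := Fin (2 * m + 1) with hI0
  set J := Fin N × Fin N' with hJ
  set tt : I0 → ℝ := fun i => T_CORE0.tc m i.val with htt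
  have htt0 : ∀ i, 0 ≤ tt i ∧ tt i ≤ 1 := fun i => tc_01 m i.val hm (by have := i.2; omega)
  set αi : I0 → (C(Cube n, ℂ) →⋆ₐ[ℂ] L) := fun i => if i.val ≤ m then Φ else Bh with hαi
  have hAdi : ∀ i, Adm ev pr (⊤ : StarSubalgebra ℂ A) PL e (αi i) := fun i => by
    rw [hαi]; simp only; split_ifs
    · exact hAdΦ
    · exact hAdB
  have hsp1 : ∀ (i : I0) (q : Fin N'), 0 ≤ 1 - tt i * (sp q : ℝ) ∧ 1 - tt i * (sp q : ℝ) ≤ 1 := by
    intro i q
    have a1 := htt0 i
    have a2 := (sp q).2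
    have a3 : tt i * (sp q : ℝ) ≤ 1 := mul_le_one₀ a1.2 a2.1 a2.2
    have a4 : 0 ≤ tt i * (sp q : ℝ) := mul_nonneg a1.1 a2.1
    constructor <;> linarith
  set Λ : I0 × J → Cube n := fun a l => ⟨(1 - tt a.1 * (sp a.2.2 : ℝ)) * (p a.2.1 l : ℝ),
    mul_nonneg (hsp1 a.1 a.2.2).1 (p a.2.1 l).2.1,
    mul_le_one₀ (hsp1 a.1 a.2.2).2 (p a.2.1 l).2.1 (p a.2.1 l).2.2⟩ with hΛ
  obtain ⟨o, ho01, hone, hodis, hodist⟩ := bumps (cube_inf hn) Λ ω hω0
  set Y0 : I0 → J → L := fun i c => cell PL (αi i) (h c.1) (Gp e h' c.2) with hY0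
  have hh1 : ∀ j x, |h j x| ≤ 1 := fun j x => by
    rw [abs_of_nonneg (h01 j x).1]; exact (h01 j x).2
  set kc : L := cfc (kp e 3) PL with hkc
  have hqc : ∀ f, Commute (pr (Φ f)) (pr (cfc (fun t => 1 - kp e 4 t) PL)) := fun f => by
    rw [SQ.pr_cfc _ hPLs _ q_cont]
    exact hAdΦ.comm f _ q_cont (fun t ht => by rw [kp_const he 4 (by norm_num) t ht])
  have hab := fun a : I0 × J => absorb hSQ hτ hc φ Φ (fun f k => hΦk f k) PL hPLs e hκ hqc
    (Y0 a.1 a.2) (fun k => cell_norm _ _ 1 zero_le_one (hh1 _) (Gp_abs h01' _) k)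
    (by
      simp only [hY0, cell]
      rw [star_mul, star_cfc, ← mul_assoc, cmul _ _ _ (kp_cont _ _) (Gp_cont _)]
      congr 2
      funext t
      unfold Gp
      have h1 := kp_mul he (show 3 < 4 by norm_num) t
      calc kp e 4 t * (h' a.2.2 (Set.projIcc 0 1 zero_le_one (kp e 1 t)) * kp e 3 t) =
            h' a.2.2 (Set.projIcc 0 1 zero_le_one (kp e 1 t)) * (kp e 4 t * kp e 3 t) := by ring
        _ = _ := by rw [h1])
    (o a) (ho01 a) (by
      obtain ⟨x, hx⟩ := hone a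
      exact mn_pos τ hτ φ hinj (o a) (fun x => (ho01 a x).1) x hx)
  choose yy zz hyy hyz using hab
  set RR : I0 → L := fun i => ∑ c, yy (i, c) with hRR
  -- inner products
  have hYsum : ∀ i, pr (∑ c, star (Y0 i c) * Y0 i c) = pr (kc * kc) := by
    intro i
    have e1 := cell_sum (hAdi i) hAdP h (Gp e h') (fun q => Gp_cont q) (Gp_const he)
    rw [e1]
    have e2 : cxx (∑ j, h j * h j) = (1 : C(Cube n, ℂ)) := by
      ext x
      rw [cxx_apply]
      have : (∑ j, h j * h j : C(Cube n, ℝ)) x = ∑ j, h j x ^ 2 := by simp [sq]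
      rw [this, hsum]
      simp
    rw [e2, map_one, map_one, one_mul, hkc, cmul _ _ _ (kp_cont _ _) (kp_cont _ _),
      SQ.pr_cfc _ hPLs _ (by have := kp_cont e 3; fun_prop)]
    congr 1
    funext t
    rw [Gp_sum hsum', sq]
  have hyo : ∀ a b : I0 × J, a ≠ b → star (pr (yy a)) * pr (yy b) = 0 := by
    intro a b hab
    rw [hyz, hyz, star_mul, star_mul]
    calc star (zz a) * (star (pr (cfc (fun t => 1 - kp e 4 t) PL)) * star (pr (Φ (cxx (o a))))) *
          (pr (Φ (cxx (o b))) * pr (cfc (fun t => 1 - kp e 4 t) PL) * zz b) =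
          star (zz a) * star (pr (cfc (fun t => 1 - kp e 4 t) PL)) *
            (star (pr (Φ (cxx (o a)))) * pr (Φ (cxx (o b)))) *
            (pr (cfc (fun t => 1 - kp e 4 t) PL) * zz b) := by simp only [mul_assoc]
      _ = 0 := by
          rw [← map_star, ← map_star, ← map_star, star_cxx, ← map_mul, ← map_mul, cxx_mul,
            hodis a b hab, cxx_zero, map_zero, map_zero, mul_zero, zero_mul]
  have hip : ∀ i i' : I0, pr (star (RR i) * RR i' - if i = i' then kc * kc else 0) = 0 := by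
    intro i i'
    rw [map_sub, sub_eq_zero, map_mul, map_star]
    simp only [hRR, map_sum]
    by_cases hii : i = i'
    · subst hii
      rw [if_pos rfl, star_sum_mul Finset.univ (fun c => pr (yy (i, c))) fun c _ c' _ hcc' =>
        hyo _ _ fun h => hcc' (Prod.ext_iff.1 h).2, ← hYsum i, map_sum]
      refine Finset.sum_congr rfl fun c _ => ?_
      rw [← hyy (i, c), map_mul, map_star]
    · rw [if_neg hii, map_zero, star_sum, Finset.sum_mul_sum]
      refine Finset.sum_eq_zero fun c _ => Finset.sum_eq_zero fun c' _ => ?_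
      exact hyo _ _ fun h => hii (Prod.ext_iff.1 h).1
  -- the intertwining relation
  have hint0 := fun (i : I0) (l : Fin n) =>
    inter2 (hAdi i) hAdP he h h' sp ω hω0 hpar (fun c => yy (i, c)) (fun c => hyy (i, c))
      (fun c => o (i, c)) (fun c c' hcc' => hodis _ _ fun h => hcc' (Prod.ext_iff.1 h).2)
      (fun c => pr (cfc (fun t => 1 - kp e 4 t) PL) * zz (i, c))
      (fun c => by rw [hyz, mul_assoc]) (cor l) (fun j => (p j l : ℝ))
      (fun x => ⟨(x l).2.1, (x l).2.2⟩) (fun j => ⟨(p j l).2.1, (p j l).2.2⟩)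
      (fun j x hx => by
        have h4 := (dist_le_pi_dist x (p j) l).trans_lt (hdist j x hx)
        rw [Subtype.dist_eq, Real.dist_eq] at h4
        exact h4.le) (tt i) (htt0 i).1 (htt0 i).2 (fun c x hx => by
        have h4 := (dist_le_pi_dist x (Λ (i, c)) l).trans_lt (hodist (i, c) x hx)
        rw [Subtype.dist_eq, Real.dist_eq] at h4
        exact h4.le)
  have hRRn : ∀ i, ‖pr (RR i)‖ < 2 := by
    intro i
    have l : Fin n := ⟨0, hn⟩
    exact (hint0 i l).1.trans_lt (by norm_num)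
  have hint : ∀ (i : I0) (l : Fin n), ‖pr (Φ (co l) * RR i - RR i *
      ((1 - (tt i : ℂ) • cfc (kp e 1) PL) * αi i (co l)))‖ < δ := by
    intro i l
    refine lt_of_le_of_lt (hint0 i l).2 ?_
    rw [hω]
    linarith
  -- orthogonality
  have hcR : ∀ i, pr (kc * RR i) = 0 := by
    intro i
    rw [map_mul]
    simp only [hRR, map_sum]
    rw [Finset.mul_sum]
    refine Finset.sum_eq_zero fun c _ => ?_
    have c1 := (hAdΦ.comm (cxx (o (i, c))) (kp e 3) (kp_cont _ _)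
      (kp_const he 3 (by norm_num))).eq
    have c2 : pr (cfc (fun t => 1 - kp e 4 t) PL) = cfc (fun t => 1 - kp e 4 t) (pr PL) :=
      SQ.pr_cfc _ hPLs _ q_cont
    have c3 : pr kc = cfc (kp e 3) (pr PL) := SQ.pr_cfc _ hPLs _ (kp_cont _ _)
    have c4 : cfc (kp e 3) (pr PL) * cfc (fun t => 1 - kp e 4 t) (pr PL) = 0 := by
      rw [cmul _ _ _ (kp_cont _ _) q_cont]
      have : (fun t => kp e 3 t * (1 - kp e 4 t)) = fun _ => (0 : ℝ) := by
        funext t
        have := kp_mul he (show 3 < 4 by norm_num) t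
        linarith
      rw [this, cfc_const_zero]
    rw [hyz, c2, c3, ← mul_assoc, ← mul_assoc, ← c1, mul_assoc (pr (Φ (cxx (o (i, c))))), c4,
      mul_zero, zero_mul]
  -- extraction of an index
  have X1 : ∀ᶠ k in Filter.atTop, ∀ i : I0, ‖ev k (RR i)‖ < 2 :=
    Filter.eventually_all.2 fun i => hlt _ _ (hRRn i)
  have hz : ∀ (Z : L), pr Z = 0 → ∀ᶠ k in Filter.atTop, ‖ev k Z‖ < δ := fun Z hZ =>
    hlt _ _ (by rw [hZ, norm_zero]; exact hδ)
  have X2 : ∀ᶠ k in Filter.atTop, ∀ (l : Fin n) (r : Fin 4), 1 ≤ r.val →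
      ‖ev k (Φ (co l) * cfc (kp e r.val) PL - cfc (kp e r.val) PL * Φ (co l))‖ < δ ∧
      ‖ev k (Bh (co l) * cfc (kp e r.val) PL - cfc (kp e r.val) PL * Bh (co l))‖ < δ := by
    refine Filter.eventually_all.2 fun l => Filter.eventually_all.2 fun r => ?_
    by_cases hr : 1 ≤ r.val
    · have a1 := hz (Φ (co l) * cfc (kp e r.val) PL - cfc (kp e r.val) PL * Φ (co l)) (by
        rw [map_sub, map_mul, map_mul, SQ.pr_cfc _ hPLs _ (kp_cont _ _),
          (hAdΦ.comm (co l) _ (kp_cont _ _) (kp_const he _ hr)).eq, sub_self])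
      have a2 := hz (Bh (co l) * cfc (kp e r.val) PL - cfc (kp e r.val) PL * Bh (co l)) (by
        rw [map_sub, map_mul, map_mul, SQ.pr_cfc _ hPLs _ (kp_cont _ _),
          (hAdB.comm (co l) _ (kp_cont _ _) (kp_const he _ hr)).eq, sub_self])
      filter_upwards [a1, a2] with k h1 h2 _
      exact ⟨h1, h2⟩
    · exact Filter.Eventually.of_forall fun k h1 => absurd h1 hr
  have X3 : ∀ᶠ k in Filter.atTop, ∀ l : Fin n,
      ‖ev k ((1 - cfc (kp e 1) PL) * (Φ (co l) - Bh (co l)))‖ < δ := by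
    refine Filter.eventually_all.2 fun l => hz _ ?_
    have a1 := (halg (co l) (fun t => 1 - kp e 1 t) (by have := kp_cont e 1; fun_prop)).2
      (fun t ht => by rw [kp_one he 1 (by simpa using ht), sub_self])
    have a2 : cfc (fun t => 1 - kp e 1 t) (pr PL) = 1 - cfc (kp e 1) (pr PL) := by
      rw [cfc_sub (fun _ => (1 : ℝ)) (kp e 1) (pr PL) continuousOn_const
        (kp_cont _ _).continuousOn, cfc_const_one ℝ (pr PL) (IsSelfAdjoint.map hPLs pr)]
    rw [← hPQ, a2, ← hBQ] at a1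
    rw [map_mul, map_sub, map_sub, map_one, SQ.pr_cfc _ hPLs _ (kp_cont _ _)]
    exact a1
  have X4 : ∀ᶠ k in Filter.atTop, ∀ i : I0, ‖ev k (kc * RR i)‖ < δ :=
    Filter.eventually_all.2 fun i => hz _ (hcR i)
  have X5 : ∀ᶠ k in Filter.atTop, ∀ i i' : I0,
      ‖ev k (star (RR i) * RR i' - if i = i' then kc * kc else 0)‖ < δ :=
    Filter.eventually_all.2 fun i => Filter.eventually_all.2 fun i' => hz _ (hip i i')
  have X6 : ∀ᶠ k in Filter.atTop, ∀ (i : I0) (l : Fin n), ‖ev k (Φ (co l) * RR i - RR i *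
      ((1 - (tt i : ℂ) • cfc (kp e 1) PL) * αi i (co l)))‖ < δ :=
    Filter.eventually_all.2 fun i => Filter.eventually_all.2 fun l => hlt _ _ (hint i l)
  obtain ⟨k, k1, k2, k3, k4, k5, k6⟩ :=
    (X1.and (X2.and (X3.and (X4.and (X5.and X6))))).exists
  have hcf : ∀ r, cfc (kp e r) (ev k PL) = ev k (cfc (kp e r) PL) := fun r =>
    (SQ.ev_cfc _ hPLs _ (kp_cont _ _) k).symm
  obtain ⟨Rk, hRk, hRk0⟩ : ∃ Rk : ℕ → A, (∀ (i : ℕ) (hi : i < 2 * m + 1),
      Rk i = ev k (RR ⟨i, hi⟩)) ∧ (∀ i, ¬ i < 2 * m + 1 → Rk i = 0) :=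
    ⟨fun i => if hi : i < 2 * m + 1 then ev k (RR ⟨i, hi⟩) else 0,
      fun i hi => by simp only [dif_pos hi], fun i hi => by simp only [dif_neg hi]⟩
  refine ⟨w0 k, ev k PL, e, Rk, he, ?_, ?_, ?_, ?_, ?_, ?_, ?_, ?_⟩
  · rw [← map_star, hPLs]
  · rw [hPLk]
    refine (norm_mul_le _ _).trans ?_
    rw [norm_star]
    have := hTn k
    nlinarith [norm_nonneg (T k)]
  · intro i
    by_cases hi : i < 2 * m + 1
    · rw [hRk i hi]; exact (k1 _).le
    · rw [hRk0 i hi, norm_zero]; norm_num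
  · intro l r hr
    have h1 : r < 4 := by rcases hr with rfl | rfl | rfl <;> norm_num
    have h2 : 1 ≤ r := by rcases hr with rfl | rfl | rfl <;> norm_num
    have h3 := k2 l ⟨r, h1⟩ h2
    rw [map_sub, map_mul, map_mul, hΦk, map_sub, map_mul, map_mul, hBk'] at h3
    rw [hcf]
    exact ⟨h3.1.le, h3.2.le⟩
  · intro l
    have h3 := k3 l
    rw [map_mul, map_sub, map_sub, map_one, hΦk, hBk'] at h3
    rw [hcf]
    exact h3.le
  · intro i hi1 hi2
    have hi3 : i < 2 * m + 1 := by omega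
    have h3 := k4 ⟨i, hi3⟩
    rw [hRk i hi3, hcf]
    rw [map_mul] at h3
    exact h3.le
  · intro i j hi1 hi2 hj1 hj2
    have hi3 : i < 2 * m + 1 := by omega
    have hj3 : j < 2 * m + 1 := by omega
    have h3 := k5 ⟨i, hi3⟩ ⟨j, hj3⟩
    rw [hRk i hi3, hRk j hj3, hcf]
    by_cases hij : i = j
    · subst hij
      rw [if_pos rfl] at h3 ⊢
      rw [map_sub, map_mul, map_star, map_mul] at h3
      exact h3.le
    · rw [if_neg hij]
      rw [if_neg (fun h => hij (Fin.mk.inj_iff.1 h)), sub_zero, map_mul, map_star] at h3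
      rw [sub_zero]
      exact h3.le
  · intro i l hi1 hi2
    have hi3 : i < 2 * m + 1 := by omega
    have h3 := k6 ⟨i, hi3⟩ l
    rw [hRk i hi3, hcf]
    have e1 : (1 - ((tt ⟨i, hi3⟩ : ℝ) : ℂ) • cfc (kp e 1) PL) * αi ⟨i, hi3⟩ (co l) =
        site m (cfc (kp e 1) PL) (Φ (co l)) (Bh (co l)) i := by
      rw [T_CORE0.site_eq]
      congr 1
      simp only [hαi, T_CORE0.bs]
      split_ifs <;> rfl
    rw [e1, map_sub, map_mul, map_mul, T_CORE0.map_site, hΦk, hBk'] at h3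
    exact h3.le

end Pool.Agent.H85.UQ
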