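import Pool.Agent.H85.UQ.Absorb
import Pool.Agent.H85.UQ.Bumps

/-! The intertwining estimate in the sequence algebra. -/

set_option autoImplicit false

open scoped ComplexConjugate

noncomputable section

namespace Pool.Agent.H85.UQ

open Pool.Agent.H923R2.FP Pool.Agent.H923R2.FZ Pool.Agent.N300.UN
open Pool.Agent.N300.UN.T_DATA

theorem norm_add_sq {A : Type} [CStarAlgebra A] {ι : Type} (s : Finset ι) (a b : ι → A) :
    ‖∑ i ∈ s, star (a i + b i) * (a i + b i)‖ ≤
      2 * ‖∑ i ∈ s, star (a i) * a i‖ + 2 * ‖∑ i ∈ s, star (b i) * b i‖ := by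
  let _ := CStarAlgebra.spectralOrder A
  let _ := CStarAlgebra.spectralOrderedRing A
  have h1 : (0 : A) ≤ ∑ i ∈ s, star (a i + b i) * (a i + b i) :=
    Finset.sum_nonneg fun i _ => star_mul_self_nonneg _
  have h2 : ∑ i ∈ s, star (a i + b i) * (a i + b i) ≤
      (2 : ℂ) • (∑ i ∈ s, star (a i) * a i + ∑ i ∈ s, star (b i) * b i) := by
    rw [← Finset.sum_add_distrib, Finset.smul_sum]
    refine Finset.sum_le_sum fun i _ => ?_
    have h3 : (2 : ℂ) • (star (a i) * a i + star (b i) * b i) =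
        star (a i + b i) * (a i + b i) + star (a i - b i) * (a i - b i) := by
      rw [star_add, star_sub, two_smul]
      noncomm_ring
    rw [h3]
    exact le_add_of_nonneg_right (star_mul_self_nonneg _)
  have h3 := CStarAlgebra.norm_le_norm_of_nonneg_of_le h1 h2
  rw [norm_smul] at h3
  have h4 : ‖(2 : ℂ)‖ = 2 := by norm_num
  rw [h4] at h3
  calc _ ≤ _ := h3
    _ ≤ 2 * (‖∑ i ∈ s, star (a i) * a i‖ + ‖∑ i ∈ s, star (b i) * b i‖) := by
        gcongr
        exact norm_add_le _ _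
    _ = _ := by ring

section inter

variable {B L Q : Type} [CStarAlgebra B] [CStarAlgebra L] [CStarAlgebra Q]
  {ev : ℕ → (L →⋆ₐ[ℂ] B)} {pr : L →⋆ₐ[ℂ] Q}
  {X : Type} [MetricSpace X] [CompactSpace X]
  {S : StarSubalgebra ℂ B} {τ : B →ₗ[ℂ] ℂ} {PL : L} {e κ : ℝ}
  {Φ α : C(X, ℂ) →⋆ₐ[ℂ] L} {N N' : ℕ}

theorem inter2 (hα : Adm ev pr S PL e α) (hP : AdP ev S τ PL e κ) (he : 0 < e)
    (h : Fin N → C(X, ℝ)) (h' : Fin N' → C(unitInterval, ℝ))
    (sp : Fin N' → unitInterval) (ω : ℝ) (hω : 0 < ω) (hpar : Par X N N' h h' sp ω)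
    (y : Fin N × Fin N' → L)
    (hy : ∀ c, pr (star (y c) * y c) =
      pr (star (cell PL α (h c.1) (Gp e h' c.2)) * cell PL α (h c.1) (Gp e h' c.2)))
    (o : Fin N × Fin N' → C(X, ℝ)) (ho : ∀ c c', c ≠ c' → o c * o c' = 0)
    (z : Fin N × Fin N' → Q) (hyz : ∀ c, pr (y c) = pr (Φ (cxx (o c))) * z c)
    (cl : C(X, ℝ)) (pj : Fin N → ℝ) (hcl : ∀ x, 0 ≤ cl x ∧ cl x ≤ 1)
    (hpj : ∀ j, 0 ≤ pj j ∧ pj j ≤ 1) (hclp : ∀ j x, h j x ≠ 0 → |cl x - pj j| ≤ ω)
    (t : ℝ) (ht0 : 0 ≤ t) (ht1 : t ≤ 1)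
    (hol : ∀ c x, o c x ≠ 0 → |cl x - (1 - t * (sp c.2 : ℝ)) * pj c.1| ≤ ω) :
    ‖pr (∑ c, y c)‖ ≤ 1 ∧
    ‖pr (Φ (cxx cl) * (∑ c, y c) -
        (∑ c, y c) * ((1 - (t : ℂ) • cfc (kp e 1) PL) * α (cxx cl)))‖ ≤ 3 * ω := by
  classical
  set Y0 : Fin N × Fin N' → L := fun c => cell PL α (h c.1) (Gp e h' c.2) with hY0
  set θ : L := (1 - (t : ℂ) • cfc (kp e 1) PL) * α (cxx cl) with hθ
  have hh1 : ∀ j x, |h j x| ≤ 1 := fun j x => by
    rw [abs_of_nonneg (hpar.h01 j x).1]; exact (hpar.h01 j x).2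
  set lam : Fin N × Fin N' → ℝ := fun c => (1 - t * (sp c.2 : ℝ)) * pj c.1 with hlam
  -- the families
  set Y2 : Fin N × Fin N' → L := fun c => cell PL α ((ct (pj c.1) - cl) * h c.1)
    (fun r => (1 - t * kp e 1 r) * Gp e h' c.2 r) with hY2
  set Y3 : Fin N × Fin N' → L := fun c => cell PL α (ct (pj c.1) * h c.1)
    (fun r => (t * (kp e 1 r - sp c.2)) * Gp e h' c.2 r) with hY3
  -- identity on the right, in the quotient
  have hright : ∀ c, pr (((lam c : ℝ) : ℂ) • Y0 c - Y0 c * θ) = pr (Y2 c) + pr (Y3 c) := by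
    intro c
    have hGc := Gp_cont (e := e) (h' := h') c.2
    have hkc := kp_cont e 1
    have c1 := (hα.comm (cxx cl) (Gp e h' c.2) hGc (Gp_const he c.2)).eq
    have c2 := (hα.comm (cxx cl) (kp e 1) hkc (kp_const he 1 le_rfl)).eq
    have c3 : cfc (Gp e h' c.2) (pr PL) * cfc (kp e 1) (pr PL) =
        cfc (kp e 1) (pr PL) * cfc (Gp e h' c.2) (pr PL) := (cfc_commute_cfc _ _ _).eq
    have c4 : pr (α (cxx (h c.1))) * pr (α (cxx cl)) = pr (α (cxx cl)) * pr (α (cxx (h c.1))) := by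
      rw [← map_mul, ← map_mul, ← map_mul, ← map_mul, mul_comm]
    have d1 : cfc (fun r => (1 - t * kp e 1 r) * Gp e h' c.2 r) (pr PL) =
        cfc (Gp e h' c.2) (pr PL) -
          (t : ℂ) • (cfc (kp e 1) (pr PL) * cfc (Gp e h' c.2) (pr PL)) := by
      rw [cmul _ _ _ hkc hGc, Complex.coe_smul, ← cfc_const_mul t _ (pr PL) (by fun_prop),
        ← cfc_sub _ _ (pr PL) hGc.continuousOn (by fun_prop)]
      congr 1
      funext r
      ring
    have d2 : cfc (fun r => (t * (kp e 1 r - sp c.2)) * Gp e h' c.2 r) (pr PL) =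
        (t : ℂ) • (cfc (kp e 1) (pr PL) * cfc (Gp e h' c.2) (pr PL)) -
          ((t * (sp c.2 : ℝ) : ℝ) : ℂ) • cfc (Gp e h' c.2) (pr PL) := by
      rw [cmul _ _ _ hkc hGc, Complex.coe_smul, ← cfc_const_mul t _ (pr PL) (by fun_prop),
        Complex.coe_smul, ← cfc_const_mul (t * (sp c.2 : ℝ)) _ (pr PL) (by fun_prop),
        ← cfc_sub _ _ (pr PL) (by fun_prop) (by fun_prop)]
      congr 1
      funext r
      ring
    have k1 : pr (cfc (Gp e h' c.2) PL) = cfc (Gp e h' c.2) (pr PL) :=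
      SQ.pr_cfc PL hP.sa _ hGc
    have k2 : pr (cfc (kp e 1) PL) = cfc (kp e 1) (pr PL) := SQ.pr_cfc PL hP.sa _ hkc
    have k3 : pr (cfc (fun r => (1 - t * kp e 1 r) * Gp e h' c.2 r) PL) =
        cfc (fun r => (1 - t * kp e 1 r) * Gp e h' c.2 r) (pr PL) :=
      SQ.pr_cfc PL hP.sa _ (by fun_prop)
    have k4 : pr (cfc (fun r => (t * (kp e 1 r - sp c.2)) * Gp e h' c.2 r) PL) =
        cfc (fun r => (t * (kp e 1 r - sp c.2)) * Gp e h' c.2 r) (pr PL) :=
      SQ.pr_cfc PL hP.sa _ (by fun_prop)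
    have m1 : ∀ r : ℝ, pr (α (cxx ((ct r - cl) * h c.1))) =
        (r : ℂ) • pr (α (cxx (h c.1))) - pr (α (cxx cl)) * pr (α (cxx (h c.1))) := by
      intro r
      rw [sub_mul, cxx_sub, cxx_ct_mul, ← cxx_mul]
      simp only [map_sub, map_smul, map_mul]
    have m2 : ∀ r : ℝ, pr (α (cxx (ct r * h c.1))) = (r : ℂ) • pr (α (cxx (h c.1))) := by
      intro r
      rw [cxx_ct_mul, map_smul, map_smul]
    simp only [hlam, hY2, hY3, hY0, hθ, cell, map_sub, map_mul, map_smul, map_one, k1, k2,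
      k3, k4, m1, m2, d1, d2]
    set H := pr (α (cxx (h c.1)))
    set Cc := pr (α (cxx cl))
    set D := cfc (Gp e h' c.2) (pr PL)
    set Sg := cfc (kp e 1) (pr PL)
    have f1 : H * D * ((1 - (t : ℂ) • Sg) * Cc) = Cc * H * D - (t : ℂ) • (Cc * H * (Sg * D)) := by
      rw [sub_mul, one_mul, mul_sub, smul_mul_assoc, mul_smul_comm]
      congr 1
      · rw [mul_assoc, ← c1, ← mul_assoc, c4]
      · congr 1
        calc H * D * (Sg * Cc) = H * (D * (Sg * Cc)) := by rw [mul_assoc]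
          _ = H * (D * (Cc * Sg)) := by rw [c2]
          _ = H * ((D * Cc) * Sg) := by rw [mul_assoc]
          _ = H * ((Cc * D) * Sg) := by rw [c1]
          _ = (H * Cc) * (D * Sg) := by simp only [mul_assoc]
          _ = (Cc * H) * (Sg * D) := by rw [c4, c3]
          _ = _ := rfl
    rw [f1]
    simp only [sub_mul, mul_sub, smul_mul_assoc, mul_smul_comm, smul_sub, smul_smul,
      Complex.ofReal_sub, Complex.ofReal_mul, Complex.ofReal_one]
    module
  -- bounds
  have hG0 := fun p => Gp_cont (e := e) (h' := h') p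
  have hGsum : ∀ r, ∑ p, Gp e h' p r ^ 2 ≤ 1 := fun r => by
    rw [Gp_sum hpar.hs']
    have := kp_01 e 3 r
    exact pow_le_one₀ this.1 this.2
  have hY0s : ‖pr (∑ c, star (Y0 c) * Y0 c)‖ ≤ 1 := by
    have := cell_sum_norm hα hP h (Gp e h') hG0 (Gp_const he) 1 1 zero_le_one zero_le_one
      (fun x => (hpar.hs x).le) hGsum
    rwa [one_mul] at this
  have htk : ∀ r, |1 - t * kp e 1 r| ≤ 1 := fun r => by
    have a1 := kp_01 e 1 r
    have a2 : t * kp e 1 r ≤ 1 := mul_le_one₀ ht1 a1.1 a1.2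
    have a3 : 0 ≤ t * kp e 1 r := mul_nonneg ht0 a1.1
    rw [abs_le]; constructor <;> linarith
  have hmulG : ∀ (p : Fin N') (w r : ℝ), |w| ≤ 1 → (w * Gp e h' p r) ^ 2 ≤ Gp e h' p r ^ 2 := by
    intro p w r hw
    rw [mul_pow]
    have a1 : w ^ 2 ≤ 1 := by rw [← sq_abs]; exact pow_le_one₀ (abs_nonneg _) hw
    nlinarith [sq_nonneg (Gp e h' p r)]
  have hG2c : ∀ p : Fin N', Continuous (fun r => (1 - t * kp e 1 r) * Gp e h' p r) := fun p => by
    have a1 := kp_cont e 1
    have a2 := hG0 p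
    fun_prop
  have hG3c : ∀ p : Fin N', Continuous (fun r => (t * (kp e 1 r - sp p)) * Gp e h' p r) :=
    fun p => by
    have a1 := kp_cont e 1
    have a2 := hG0 p
    fun_prop
  have hY2s : ‖pr (∑ c, star (Y2 c) * Y2 c)‖ ≤ ω ^ 2 := by
    have := cell_sum_norm hα hP (fun j => (ct (pj j) - cl) * h j)
      (fun p r => (1 - t * kp e 1 r) * Gp e h' p r) hG2c
      (fun p r hr => by rw [kp_const he 1 le_rfl r hr, Gp_const he p r hr]) (ω ^ 2) 1
      (sq_nonneg _) zero_le_one (fun x => by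
        calc ∑ j, ((ct (pj j) - cl) * h j : C(X, ℝ)) x ^ 2 ≤ ∑ j, ω ^ 2 * h j x ^ 2 := by
              refine Finset.sum_le_sum fun j _ => ?_
              by_cases h0 : h j x = 0
              · simp [h0]
              · have a1 := hclp j x h0
                rw [abs_sub_comm] at a1
                have a2 : (pj j - cl x) ^ 2 ≤ ω ^ 2 :=
                  sq_le_sq' (abs_le.1 a1).1 (abs_le.1 a1).2
                simp only [ContinuousMap.mul_apply, ContinuousMap.sub_apply, ct,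
                  ContinuousMap.const_apply, mul_pow]
                have := sq_nonneg (h j x)
                gcongr
          _ = ω ^ 2 := by rw [← Finset.mul_sum, hpar.hs, mul_one])
      (fun r => (Finset.sum_le_sum fun p _ => hmulG p _ r (htk r)).trans (hGsum r))
    rwa [mul_one] at this
  have hY3s : ‖pr (∑ c, star (Y3 c) * Y3 c)‖ ≤ ω ^ 2 := by
    have := cell_sum_norm hα hP (fun j => ct (pj j) * h j)
      (fun p r => (t * (kp e 1 r - sp p)) * Gp e h' p r) hG3c
      (fun p r hr => by rw [kp_const he 1 le_rfl r hr, Gp_const he p r hr]) 1 (ω ^ 2)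
      zero_le_one (sq_nonneg _) (fun x => by
        calc ∑ j, (ct (pj j) * h j : C(X, ℝ)) x ^ 2 ≤ ∑ j, h j x ^ 2 := by
              refine Finset.sum_le_sum fun j _ => ?_
              simp only [ContinuousMap.mul_apply, ct, ContinuousMap.const_apply, mul_pow]
              have a1 : pj j ^ 2 ≤ 1 := pow_le_one₀ (hpj j).1 (hpj j).2
              nlinarith [sq_nonneg (h j x)]
          _ = 1 := hpar.hs x)
      (fun r => by
        calc ∑ p, ((t * (kp e 1 r - sp p)) * Gp e h' p r) ^ 2 ≤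
              ∑ p, ω ^ 2 * Gp e h' p r ^ 2 := by
              refine Finset.sum_le_sum fun p _ => ?_
              by_cases h0 : Gp e h' p r = 0
              · simp [h0]
              · have a1 := (Gp_dist sp ω hpar.hd' p r h0).le
                have a2 : (kp e 1 r - sp p) ^ 2 ≤ ω ^ 2 :=
                  sq_le_sq' (abs_le.1 a1).1 (abs_le.1 a1).2
                have a3 : t ^ 2 ≤ 1 := pow_le_one₀ ht0 ht1
                rw [mul_pow, mul_pow]
                have a4 : t ^ 2 * (kp e 1 r - sp p) ^ 2 ≤ ω ^ 2 := by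
                  nlinarith [sq_nonneg (kp e 1 r - sp p)]
                have := sq_nonneg (Gp e h' p r)
                gcongr
          _ = ω ^ 2 * ∑ p, Gp e h' p r ^ 2 := by rw [Finset.mul_sum]
          _ ≤ ω ^ 2 := by
              have := hGsum r
              nlinarith [sq_nonneg ω])
    rwa [one_mul] at this
  -- orthogonality
  have hyo : ∀ c c', c ≠ c' → star (pr (y c)) * pr (y c') = 0 := by
    intro c c' hcc'
    rw [hyz, hyz, star_mul]
    calc star (z c) * star (pr (Φ (cxx (o c)))) * (pr (Φ (cxx (o c'))) * z c') =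
          star (z c) * (star (pr (Φ (cxx (o c)))) * pr (Φ (cxx (o c')))) * z c' := by
          simp only [mul_assoc]
      _ = 0 := by
          rw [← map_star, ← map_star, star_cxx, ← map_mul, ← map_mul, cxx_mul, ho c c' hcc']
          have : cxx (0 : C(X, ℝ)) = 0 := by ext x; simp [cxx_apply]
          rw [this, map_zero, map_zero, mul_zero, zero_mul]
  have hsum1 : star (∑ c, pr (y c)) * ∑ c, pr (y c) = pr (∑ c, star (Y0 c) * Y0 c) := by
    rw [star_sum_mul Finset.univ (fun c => pr (y c)) fun i _ j _ hij => hyo i j hij, map_sum]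
    refine Finset.sum_congr rfl fun c _ => ?_
    rw [← hy c, map_mul, map_star]
  have hn1 : ‖∑ c, pr (y c)‖ ≤ 1 := by
    have h1 : ‖star (∑ c, pr (y c)) * ∑ c, pr (y c)‖ ≤ 1 := by rw [hsum1]; exact hY0s
    rw [CStarRing.norm_star_mul_self] at h1
    nlinarith [norm_nonneg (∑ c, pr (y c))]
  refine ⟨by rw [map_sum]; exact hn1, ?_⟩
  -- the decomposition
  have hdec : pr (Φ (cxx cl) * (∑ c, y c) - (∑ c, y c) * θ) =
      ∑ c, (pr.comp Φ) (cxx (cl - ct (lam c))) * ((pr.comp Φ) (cxx (o c)) * z c) +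
        ∑ c, (((lam c : ℝ) : ℂ) • pr (y c) - pr (y c) * pr θ) := by
    rw [map_sub, map_mul, map_mul, map_sum, Finset.mul_sum, Finset.sum_mul,
      ← Finset.sum_sub_distrib, ← Finset.sum_add_distrib]
    refine Finset.sum_congr rfl fun c _ => ?_
    have e1 : (pr.comp Φ) (cxx (o c)) * z c = pr (y c) := (hyz c).symm
    have e2 : (pr.comp Φ) (cxx (cl - ct (lam c))) =
        pr (Φ (cxx cl)) - ((lam c : ℝ) : ℂ) • (1 : Q) := by
      have e3 : cxx (cl - ct (lam c)) = cxx cl - ((lam c : ℝ) : ℂ) • (1 : C(X, ℂ)) := by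
        ext x
        simp [cxx_apply, ct]
      rw [e3]
      change pr (Φ _) = _
      rw [map_sub, map_smul, map_one, map_sub, map_smul, map_one]
    rw [e1, e2, sub_mul, smul_mul_assoc, one_mul]
    abel
  have hfirst : ‖∑ c, (pr.comp Φ) (cxx (cl - ct (lam c))) * ((pr.comp Φ) (cxx (o c)) * z c)‖ ≤
      ω := by
    have h1 := col1 (pr.comp Φ) Finset.univ o ho z (fun c => cxx (cl - ct (lam c))) ω hω.le
      (fun c x hx => by
        rw [cxx_apply, Complex.norm_real, Real.norm_eq_abs]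
        exact hol c x hx)
    have h2 : ∑ c, (pr.comp Φ) (cxx (o c)) * z c = ∑ c, pr (y c) :=
      Finset.sum_congr rfl fun c _ => (hyz c).symm
    rw [h2] at h1
    refine h1.trans ?_
    nlinarith
  have hsecond : ‖∑ c, (((lam c : ℝ) : ℂ) • pr (y c) - pr (y c) * pr θ)‖ ≤ 2 * ω := by
    set W : Fin N × Fin N' → Q := fun c => ((lam c : ℝ) : ℂ) • (1 : Q) - pr θ with hW
    have e1 : ∀ c, ((lam c : ℝ) : ℂ) • pr (y c) - pr (y c) * pr θ = pr (y c) * W c := fun c => by
      simp only [hW]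
      rw [mul_sub, mul_smul_comm, mul_one]
    have e2 : ∀ c, ((lam c : ℝ) : ℂ) • pr (Y0 c) - pr (Y0 c) * pr θ = pr (Y0 c) * W c :=
      fun c => by
      simp only [hW]
      rw [mul_sub, mul_smul_comm, mul_one]
    have e3 : ∀ c, pr (Y0 c) * W c = pr (Y2 c) + pr (Y3 c) := fun c => by
      rw [← e2, ← hright c, map_sub, map_smul, map_mul pr (Y0 c) θ]
    have e4 : star (∑ c, pr (y c) * W c) * ∑ c, pr (y c) * W c =
        ∑ c, star (pr (Y2 c) + pr (Y3 c)) * (pr (Y2 c) + pr (Y3 c)) := by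
      rw [star_sum_mul Finset.univ (fun c => pr (y c) * W c) fun i _ j _ hij => by
        rw [star_mul]
        calc star (W i) * star (pr (y i)) * (pr (y j) * W j) =
              star (W i) * (star (pr (y i)) * pr (y j)) * W j := by simp only [mul_assoc]
          _ = 0 := by rw [hyo i j hij, mul_zero, zero_mul]]
      refine Finset.sum_congr rfl fun c _ => ?_
      have e5 : star (pr (y c)) * pr (y c) = star (pr (Y0 c)) * pr (Y0 c) := by
        rw [← map_star, ← map_mul, hy c, map_mul, map_star]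
      calc star (pr (y c) * W c) * (pr (y c) * W c) =
            star (W c) * (star (pr (y c)) * pr (y c)) * W c := by
            rw [star_mul]; simp only [mul_assoc]
        _ = star (pr (Y0 c) * W c) * (pr (Y0 c) * W c) := by
            rw [e5, star_mul]; simp only [mul_assoc]
        _ = _ := by rw [e3]
    have e6 : ‖star (∑ c, pr (y c) * W c) * ∑ c, pr (y c) * W c‖ ≤ (2 * ω) ^ 2 := by
      rw [e4]
      refine (norm_add_sq Finset.univ (fun c => pr (Y2 c)) (fun c => pr (Y3 c))).trans ?_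
      have e7 : ∑ c, star (pr (Y2 c)) * pr (Y2 c) = pr (∑ c, star (Y2 c) * Y2 c) := by
        simp only [map_sum, map_mul, map_star]
      have e8 : ∑ c, star (pr (Y3 c)) * pr (Y3 c) = pr (∑ c, star (Y3 c) * Y3 c) := by
        simp only [map_sum, map_mul, map_star]
      rw [e7, e8]
      nlinarith
    rw [CStarRing.norm_star_mul_self] at e6
    rw [Finset.sum_congr rfl fun c _ => e1 c]
    have e9 : ‖∑ c, pr (y c) * W c‖ ^ 2 ≤ (2 * ω) ^ 2 := by rw [sq]; exact e6
    exact (pow_le_pow_iff_left₀ (norm_nonneg _) (by positivity) two_ne_zero).1 e9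
  rw [hdec]
  calc _ ≤ _ := norm_add_le _ _
    _ ≤ ω + 2 * ω := add_le_add hfirst hsecond
    _ = 3 * ω := by ring

end inter

end Pool.Agent.H85.UQ
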