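import Pool.Agent.H85.UQ.Cells
import Pool.Graph.R_pool_sql_team_seeded_63374d34.N300.UN.TDATA

/-! The approximate intertwiner, from comparison. -/

set_option autoImplicit false

open scoped ComplexConjugate

noncomputable section

namespace Pool.Agent.H85.UQ

open Pool.Agent.H923R2.FP Pool.Agent.H923R2.FZ Pool.Agent.N300.UN
open Pool.Agent.N300.UN.T_DATA (cxx cxx_apply star_cxx cxx_mul cxx_sum cxx_sub norm_cxx_le hom_norm
  mu_mono tr_mono tr_left tr_right tr_real)

/-- comparison, in a form convenient for the proofs -/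
def CmpT {A : Type} [CStarAlgebra A] (τ : A →ₗ[ℂ] ℂ) : Prop :=
  ∀ (x y : A) (M : ℝ) (n0 : ℕ),
    (∀ n : ℕ, (τ (cfc (fun t : ℝ => min 1 ((n : ℝ) * t)) (star x * x))).re ≤ M) →
    M < (τ (cfc (fun t : ℝ => min 1 ((n0 : ℝ) * t)) (star y * y))).re →
    ∀ ε : ℝ, 0 < ε → ∃ v : A, ‖v * (star y * y) * star v - star x * x‖ < ε

/-- composition of real functions -/
def cmp {X : Type} [TopologicalSpace X] (G : ℝ → ℝ) (hG : Continuous G) (g : C(X, ℝ)) : C(X, ℝ) :=
  ⟨fun x => G (g x), hG.comp g.continuous⟩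

theorem cmp_apply {X : Type} [TopologicalSpace X] (G : ℝ → ℝ) (hG : Continuous G) (g : C(X, ℝ))
    (x : X) : cmp G hG g x = G (g x) := rfl

theorem exists_cfc {C : Type} [CStarAlgebra C] (c : C) (hc : star c = c) (G : ℝ → ℝ)
    (hG : Continuous G) : ∃ d : C, ∀ (B : Type) [CStarAlgebra B] (f : C →⋆ₐ[ℂ] B),
      f d = cfc G (f c) :=
  ⟨cfc G c, fun _ _ f => f.map_cfc G c hG.continuousOn (cont_hom f) hc (IsSelfAdjoint.map hc f)⟩

theorem cfc_hom_cxx {X : Type} [TopologicalSpace X] [CompactSpace X] {A : Type} [CStarAlgebra A]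
    (ψ : C(X, ℂ) →⋆ₐ[ℂ] A) (G : ℝ → ℝ) (hG : Continuous G)
    (g : C(X, ℝ)) : cfc G (ψ (cxx g)) = ψ (cxx (cmp G hG g)) := by
  obtain ⟨d, hd⟩ := exists_cfc (cxx g) (star_cxx g) G hG
  have h1 : d = cxx (cmp G hG g) := by
    ext x
    have h2 := hd ℂ (ContinuousMap.evalStarAlgHom ℂ ℂ x)
    have h3 : (ContinuousMap.evalStarAlgHom ℂ ℂ x) d = d x := rfl
    have h4 : (ContinuousMap.evalStarAlgHom ℂ ℂ x) (cxx g) = algebraMap ℝ ℂ (g x) := rfl
    rw [h3, h4, cfc_algebraMap (R := ℝ) (g x) G] at h2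
    rw [h2]
    rfl
  rw [← h1]
  exact (hd A ψ).symm

section

variable {A : Type} [CStarAlgebra A] {X : Type} [MetricSpace X] [CompactSpace X]

/-- the functional on the real functions -/
def mn (τ : A →ₗ[ℂ] ℂ) (φ : C(X, ℂ) →⋆ₐ[ℂ] A) (f : C(X, ℝ)) : ℝ := (τ (φ (cxx f))).re

theorem cxx_add {X : Type} [TopologicalSpace X] (h h' : C(X, ℝ)) :
    cxx (h + h') = cxx h + cxx h' := by
  ext x
  simp [cxx_apply]

theorem cxx_one {X : Type} [TopologicalSpace X] : cxx (1 : C(X, ℝ)) = 1 := by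
  ext x
  simp [cxx_apply]

theorem mn_mean (τ : A →ₗ[ℂ] ℂ) (hτ : FTS τ) (φ : C(X, ℂ) →⋆ₐ[ℂ] A) : Mean X (mn τ φ) where
  add := fun f g => by
    unfold mn
    rw [cxx_add, map_add, map_add, Complex.add_re]
  mono := fun f g h => mu_mono hτ φ f g h
  one := by
    unfold mn
    rw [cxx_one, map_one, hτ.one, Complex.one_re]

/-- faithfulness -/
theorem mn_pos (τ : A →ₗ[ℂ] ℂ) (hτ : FTS τ) (φ : C(X, ℂ) →⋆ₐ[ℂ] A) (hφ : Function.Injective φ)
    (f : C(X, ℝ)) (h0 : ∀ x, 0 ≤ f x) (x : X) (hx : f x ≠ 0) : 0 < mn τ φ f := by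
  set g : C(X, ℝ) := cmp (fun t => √t) Real.continuous_sqrt f with hg
  have hgg : g * g = f := by
    ext x
    exact Real.mul_self_sqrt (h0 x)
  have e1 : φ (cxx f) = star (φ (cxx g)) * φ (cxx g) := by
    rw [← map_star, star_cxx, ← map_mul, cxx_mul, hgg]
  have e2 : 0 ≤ mn τ φ f := by
    unfold mn
    rw [e1]
    exact hτ.nonneg _
  refine lt_of_le_of_ne e2 fun e3 => hx ?_
  have e4 : φ (cxx g) = 0 := hτ.faith _ (by rw [← e1]; exact e3.symm)
  have e5 : cxx g = 0 := hφ (by rw [e4, map_zero])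
  have e6 := congrArg (fun f : C(X, ℂ) => f x) e5
  have e7 : ((g x : ℝ) : ℂ) = 0 := e6
  have e8 : g x = 0 := by exact_mod_cast e7
  rw [← hgg, ContinuousMap.mul_apply, e8, mul_zero]

/-- orthogonal columns -/
theorem star_sum_mul {ι : Type} (s : Finset ι) (y : ι → A)
    (h : ∀ i ∈ s, ∀ j ∈ s, i ≠ j → star (y i) * y j = 0) :
    star (∑ i ∈ s, y i) * ∑ i ∈ s, y i = ∑ i ∈ s, star (y i) * y i := by
  rw [star_sum, Finset.sum_mul_sum]
  refine Finset.sum_congr rfl fun i hi => ?_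
  rw [Finset.sum_eq_single_of_mem i hi]
  intro j hj hji
  exact h i hi j hj hji.symm

/-- comparison of norms of sums of squares -/
theorem norm_sum_le_of {ι : Type} (s : Finset ι) (y z w : ι → A) (r : ℝ) (hr : 0 ≤ r)
    (h : ∀ i ∈ s, star (z i) * z i + star (w i) * w i = ((r ^ 2 : ℝ) : ℂ) • (star (y i) * y i)) :
    ‖∑ i ∈ s, star (z i) * z i‖ ≤ r ^ 2 * ‖∑ i ∈ s, star (y i) * y i‖ := by
  let _ := CStarAlgebra.spectralOrder A
  let _ := CStarAlgebra.spectralOrderedRing A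
  have h1 : (0 : A) ≤ ∑ i ∈ s, star (z i) * z i :=
    Finset.sum_nonneg fun i _ => star_mul_self_nonneg _
  have h2 : ∑ i ∈ s, star (z i) * z i ≤ ((r ^ 2 : ℝ) : ℂ) • ∑ i ∈ s, star (y i) * y i := by
    rw [Finset.smul_sum]
    refine Finset.sum_le_sum fun i hi => ?_
    rw [← h i hi]
    exact le_add_of_nonneg_right (star_mul_self_nonneg _)
  have h3 := CStarAlgebra.norm_le_norm_of_nonneg_of_le h1 h2
  rwa [norm_smul, Complex.norm_real, Real.norm_of_nonneg (sq_nonneg r)] at h3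

/-- column estimate -/
theorem col1 (φ : C(X, ℂ) →⋆ₐ[ℂ] A) {ι : Type} (s : Finset ι) (g : ι → C(X, ℝ))
    (hg : ∀ i j, i ≠ j → g i * g j = 0) (v : ι → A) (F : ι → C(X, ℂ)) (r : ℝ) (hr : 0 ≤ r)
    (hF : ∀ i x, g i x ≠ 0 → ‖F i x‖ ≤ r) :
    ‖∑ i ∈ s, φ (F i) * (φ (cxx (g i)) * v i)‖ ≤ r * ‖∑ i ∈ s, φ (cxx (g i)) * v i‖ := by
  have horth : ∀ (F G : C(X, ℂ)) (i j : ι), i ≠ j →
      star (φ F * (φ (cxx (g i)) * v i)) * (φ G * (φ (cxx (g j)) * v j)) = 0 := by
    intro F G i j hij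
    have e1 : star (φ F * (φ (cxx (g i)) * v i)) * (φ G * (φ (cxx (g j)) * v j)) =
        star (v i) * φ (star (F * cxx (g i)) * (G * cxx (g j))) * v j := by
      simp only [star_mul, map_mul, map_star, mul_assoc]
    have e2 : star (F * cxx (g i)) * (G * cxx (g j)) = 0 := by
      have e3 : cxx (g i) * cxx (g j) = 0 := by
        rw [cxx_mul, hg i j hij]
        ext x
        simp [cxx_apply]
      rw [star_mul, star_cxx]
      calc cxx (g i) * star F * (G * cxx (g j)) = (cxx (g i) * cxx (g j)) * (star F * G) := by ring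
        _ = 0 := by rw [e3, zero_mul]
    rw [e1, e2, map_zero, mul_zero, zero_mul]
  have h1 : star (∑ i ∈ s, φ (F i) * (φ (cxx (g i)) * v i)) *
      ∑ i ∈ s, φ (F i) * (φ (cxx (g i)) * v i) =
      ∑ i ∈ s, star (φ (F i) * (φ (cxx (g i)) * v i)) * (φ (F i) * (φ (cxx (g i)) * v i)) :=
    star_sum_mul s _ fun i _ j _ hij => horth _ _ i j hij
  have h2 : star (∑ i ∈ s, φ (cxx (g i)) * v i) * ∑ i ∈ s, φ (cxx (g i)) * v i =
      ∑ i ∈ s, star (φ (cxx (g i)) * v i) * (φ (cxx (g i)) * v i) :=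
    star_sum_mul s _ fun i _ j _ hij => by
      have := horth 1 1 i j hij
      simpa using this
  -- the complementary function
  let t : ι → C(X, ℝ) := fun i => ⟨fun x => √(r ^ 2 * g i x ^ 2 - ‖F i x‖ ^ 2 * g i x ^ 2),
    by fun_prop⟩
  have ht : ∀ i, t i * t i = (⟨fun x => r ^ 2 * g i x ^ 2 - ‖F i x‖ ^ 2 * g i x ^ 2, by fun_prop⟩ :
      C(X, ℝ)) := by
    intro i
    ext x
    refine Real.mul_self_sqrt ?_
    by_cases h0 : g i x = 0
    · simp [h0]
    · have := hF i x h0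
      have h3 : ‖F i x‖ ^ 2 ≤ r ^ 2 := pow_le_pow_left₀ (norm_nonneg _) this 2
      nlinarith [sq_nonneg (g i x)]
  have h3 := norm_sum_le_of s (fun i => φ (cxx (g i)) * v i)
    (fun i => φ (F i) * (φ (cxx (g i)) * v i)) (fun i => φ (cxx (t i)) * v i) r hr
    (fun i _ => by
      have e1 : star (φ (F i) * (φ (cxx (g i)) * v i)) * (φ (F i) * (φ (cxx (g i)) * v i)) =
          star (v i) * φ (star (F i * cxx (g i)) * (F i * cxx (g i))) * v i := by
        simp only [star_mul, map_mul, map_star, mul_assoc]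
      have e2 : star (φ (cxx (t i)) * v i) * (φ (cxx (t i)) * v i) =
          star (v i) * φ (star (cxx (t i)) * cxx (t i)) * v i := by
        simp only [star_mul, map_mul, map_star, mul_assoc]
      have e3 : star (φ (cxx (g i)) * v i) * (φ (cxx (g i)) * v i) =
          star (v i) * φ (star (cxx (g i)) * cxx (g i)) * v i := by
        simp only [star_mul, map_mul, map_star, mul_assoc]
      rw [e1, e2, e3, ← add_mul, ← mul_add, ← map_add, ← smul_mul_assoc, ← mul_smul_comm,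
        ← map_smul]
      congr 3
      rw [star_cxx, cxx_mul, ht]
      ext x
      rw [star_cxx]
      simp only [ContinuousMap.add_apply, ContinuousMap.mul_apply, ContinuousMap.star_apply,
        ContinuousMap.smul_apply, cxx_apply, ContinuousMap.coe_mk, star_mul', smul_eq_mul]
      have e4 : star (F i x) * F i x = ((‖F i x‖ ^ 2 : ℝ) : ℂ) := by
        rw [Complex.star_def, Complex.conj_mul']
        push_cast
        rfl
      have e5 : star ((g i x : ℝ) : ℂ) = ((g i x : ℝ) : ℂ) := by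
        rw [Complex.star_def, Complex.conj_ofReal]
      rw [e5]
      calc star (F i x) * ((g i x : ℝ) : ℂ) * (F i x * ((g i x : ℝ) : ℂ)) +
            ((r ^ 2 * g i x ^ 2 - ‖F i x‖ ^ 2 * g i x ^ 2 : ℝ) : ℂ) =
            (star (F i x) * F i x) * (((g i x : ℝ) : ℂ) * ((g i x : ℝ) : ℂ)) +
            ((r ^ 2 * g i x ^ 2 - ‖F i x‖ ^ 2 * g i x ^ 2 : ℝ) : ℂ) := by ring
        _ = _ := by
            rw [e4]
            push_cast
            ring)
  rw [← h1, ← h2, CStarRing.norm_star_mul_self, CStarRing.norm_star_mul_self] at h3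
  have h4 : ‖∑ i ∈ s, φ (F i) * (φ (cxx (g i)) * v i)‖ ^ 2 ≤
      (r * ‖∑ i ∈ s, φ (cxx (g i)) * v i‖) ^ 2 := by
    rw [mul_pow, sq, sq ‖_‖]
    exact h3
  exact (pow_le_pow_iff_left₀ (norm_nonneg _) (by positivity) two_ne_zero).1 h4

omit [CompactSpace X] in
/-- sums of pairwise disjoint nonnegative numbers -/
theorem sum_disj {ι : Type} (s : Finset ι) (a : ι → ℝ) (c : ℝ) (hc : 0 ≤ c)
    (h : ∀ i j, i ≠ j → a i * a j = 0) (h1 : ∀ i, a i ≤ c) : ∑ i ∈ s, a i ≤ c := by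
  by_cases h0 : ∃ i ∈ s, a i ≠ 0
  · obtain ⟨i, hi, hin⟩ := h0
    rw [Finset.sum_eq_single_of_mem i hi]
    · exact h1 i
    · intro j _ hji
      have := h i j hji.symm
      rcases mul_eq_zero.1 this with h2 | h2
      · exact absurd h2 hin
      · exact h2
  · push Not at h0
    rw [Finset.sum_eq_zero h0]
    exact hc

/-- second column estimate -/
theorem col2 (ψ : C(X, ℂ) →⋆ₐ[ℂ] A) {ι : Type} (s : Finset ι) (y : ι → A)
    (hy : ∀ i j, i ≠ j → star (y i) * y j = 0) (u : ι → C(X, ℝ))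
    (hu : ∀ i j, i ≠ j → u i * u j = 0) (hu1 : ∀ i x, |u i x| ≤ 1) (g : ι → C(X, ℂ))
    (r K ε' : ℝ) (hr : 0 ≤ r) (hg1 : ∀ i, ‖g i‖ ≤ K) (hg2 : ∀ i x, u i x ≠ 0 → ‖g i x‖ ≤ r)
    (hy2 : ∀ i ∈ s, ‖star (y i) * y i - ψ (cxx (u i * u i))‖ ≤ ε') :
    ‖∑ i ∈ s, y i * ψ (g i)‖ ^ 2 ≤ r ^ 2 + s.card * (K ^ 2 * ε') := by
  have h1 : star (∑ i ∈ s, y i * ψ (g i)) * ∑ i ∈ s, y i * ψ (g i) =
      ∑ i ∈ s, star (y i * ψ (g i)) * (y i * ψ (g i)) :=
    star_sum_mul s _ fun i _ j _ hij => by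
      rw [star_mul]
      calc star (ψ (g i)) * star (y i) * (y j * ψ (g j)) =
            star (ψ (g i)) * (star (y i) * y j) * ψ (g j) := by simp only [mul_assoc]
        _ = 0 := by rw [hy i j hij, mul_zero, zero_mul]
  have h2 : ∀ i, star (y i * ψ (g i)) * (y i * ψ (g i)) =
      star (ψ (g i)) * (star (y i) * y i - ψ (cxx (u i * u i))) * ψ (g i) +
        ψ (star (g i) * cxx (u i * u i) * g i) := by
    intro i
    rw [star_mul, map_mul, map_mul, map_star]
    noncomm_ring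
  have h3 : star (∑ i ∈ s, y i * ψ (g i)) * ∑ i ∈ s, y i * ψ (g i) =
      ∑ i ∈ s, star (ψ (g i)) * (star (y i) * y i - ψ (cxx (u i * u i))) * ψ (g i) +
        ψ (∑ i ∈ s, star (g i) * cxx (u i * u i) * g i) := by
    rw [h1, map_sum, ← Finset.sum_add_distrib]
    exact Finset.sum_congr rfl fun i _ => h2 i
  have h4 : ‖∑ i ∈ s, star (ψ (g i)) * (star (y i) * y i - ψ (cxx (u i * u i))) * ψ (g i)‖ ≤
      s.card * (K ^ 2 * ε') := by
    calc _ ≤ ∑ i ∈ s, ‖star (ψ (g i)) * (star (y i) * y i - ψ (cxx (u i * u i))) * ψ (g i)‖ :=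
          norm_sum_le _ _
      _ ≤ ∑ _i ∈ s, K ^ 2 * ε' := Finset.sum_le_sum fun i hi => by
          have e1 : ‖ψ (g i)‖ ≤ K := (hom_norm ψ _).trans (hg1 i)
          have e2 := hy2 i hi
          have e3 := norm_nonneg (ψ (g i))
          have e4 := norm_nonneg (star (y i) * y i - ψ (cxx (u i * u i)))
          have e5 : 0 ≤ K := e3.trans e1
          have e6 : 0 ≤ ε' := e4.trans e2
          calc _ ≤ ‖star (ψ (g i))‖ * ‖star (y i) * y i - ψ (cxx (u i * u i))‖ * ‖ψ (g i)‖ :=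
                norm_mul₃_le
            _ ≤ K * ε' * K := by rw [norm_star]; gcongr
            _ = K ^ 2 * ε' := by ring
      _ = s.card * (K ^ 2 * ε') := by simp
  have h5 : ‖ψ (∑ i ∈ s, star (g i) * cxx (u i * u i) * g i)‖ ≤ r ^ 2 := by
    refine (hom_norm ψ _).trans ?_
    have e1 : ∑ i ∈ s, star (g i) * cxx (u i * u i) * g i =
        cxx (∑ i ∈ s, (⟨fun x => ‖g i x‖ ^ 2 * (u i x * u i x), by fun_prop⟩ : C(X, ℝ))) := by
      rw [← cxx_sum]
      refine Finset.sum_congr rfl fun i _ => ?_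
      ext x
      simp only [ContinuousMap.mul_apply, ContinuousMap.star_apply, cxx_apply,
        ContinuousMap.coe_mk]
      have e4 : star (g i x) * g i x = ((‖g i x‖ ^ 2 : ℝ) : ℂ) := by
        rw [Complex.star_def, Complex.conj_mul']
        push_cast
        rfl
      calc star (g i x) * ((u i x * u i x : ℝ) : ℂ) * g i x =
            (star (g i x) * g i x) * ((u i x * u i x : ℝ) : ℂ) := by ring
        _ = _ := by rw [e4]; push_cast; ring
    rw [e1]
    refine norm_cxx_le _ _ (sq_nonneg _) fun x => ?_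
    rw [ContinuousMap.sum_apply]
    have e2 : ∀ i, 0 ≤ ‖g i x‖ ^ 2 * (u i x * u i x) := fun i =>
      mul_nonneg (sq_nonneg _) (mul_self_nonneg _)
    have e3 : (∑ i ∈ s, (⟨fun x => ‖g i x‖ ^ 2 * (u i x * u i x), by fun_prop⟩ : C(X, ℝ)) x) =
        ∑ i ∈ s, ‖g i x‖ ^ 2 * (u i x * u i x) := rfl
    rw [e3, abs_of_nonneg (Finset.sum_nonneg fun i _ => e2 i)]
    refine sum_disj s _ _ (sq_nonneg _) (fun i j hij => ?_) fun i => ?_
    · have e4 : u i x * u j x = 0 := by
        have := congrArg (fun f : C(X, ℝ) => f x) (hu i j hij)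
        exact this
      calc ‖g i x‖ ^ 2 * (u i x * u i x) * (‖g j x‖ ^ 2 * (u j x * u j x)) =
            ‖g i x‖ ^ 2 * ‖g j x‖ ^ 2 * (u i x * u j x) * (u i x * u j x) := by ring
        _ = 0 := by rw [e4, mul_zero]
    · by_cases h0 : u i x = 0
      · rw [h0]; simp [sq_nonneg]
      · have e4 := hg2 i x h0
        have e5 := hu1 i x
        have e6 : u i x * u i x ≤ 1 := by
          rw [← abs_mul_abs_self]
          exact mul_le_one₀ e5 (abs_nonneg _) e5
        have e7 : ‖g i x‖ ^ 2 ≤ r ^ 2 := pow_le_pow_left₀ (norm_nonneg _) e4 2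
        nlinarith [sq_nonneg ‖g i x‖, mul_self_nonneg (u i x)]
  have h6 : ‖∑ i ∈ s, y i * ψ (g i)‖ ^ 2 =
      ‖star (∑ i ∈ s, y i * ψ (g i)) * ∑ i ∈ s, y i * ψ (g i)‖ := by
    rw [CStarRing.norm_star_mul_self, sq]
  rw [h6, h3]
  calc _ ≤ _ := norm_add_le _ _
    _ ≤ s.card * (K ^ 2 * ε') + r ^ 2 := add_le_add h4 h5
    _ = _ := by ring

theorem mn_smul (τ : A →ₗ[ℂ] ℂ) (φ : C(X, ℂ) →⋆ₐ[ℂ] A) (r : ℝ) (f : C(X, ℝ)) :
    mn τ φ (r • f) = r * mn τ φ f := by
  unfold mn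
  have h2 : (cxx (r • f : C(X, ℝ))) = ((r : ℝ) : ℂ) • cxx f := by
    ext x
    simp [cxx_apply]
  rw [h2, map_smul, map_smul, smul_eq_mul, Complex.re_ofReal_mul]

/-- the comparison of the cells -/
theorem cell_cmp [PreconnectedSpace X] (τ : A →ₗ[ℂ] ℂ) (hτ : FTS τ) (hc : CmpT τ)
    (φ ψ : C(X, ℂ) →⋆ₐ[ℂ] A) (hφ : Function.Injective φ) (heq : ∀ f, τ (φ f) = τ (ψ f))
    (h : C(X, ℝ)) (h01 : ∀ x, 0 ≤ h x ∧ h x ≤ 1) (hz : ∃ x, h x = 0)
    (hG : Continuous fun t : ℝ => max 0 (t - 1 / 2)) (ε : ℝ) (hε : 0 < ε) :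
    ∃ v : A, ‖v * φ (cxx h) * star v -
      ψ (cxx (cmp (fun t => max 0 (t - 1 / 2)) hG h * cmp (fun t => max 0 (t - 1 / 2)) hG h))‖
        ≤ ε := by
  set h' := cmp (fun t => max 0 (t - 1 / 2)) hG h with hh'
  by_cases h0 : ∃ x, h x ≠ 0
  swap
  · push Not at h0
    have e1 : h = 0 := by ext x; exact h0 x
    have e2 : h' = 0 := by
      ext x
      rw [hh', cmp_apply, h0 x, ContinuousMap.zero_apply]
      norm_num
    refine ⟨0, ?_⟩
    have e3 : cxx (h' * h') = 0 := by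
      rw [e2]; ext x; simp [cxx_apply]
    rw [e3]
    simpa using hε.le
  -- the value in `(0, 1/2)`
  obtain ⟨x1, hx1⟩ := h0
  obtain ⟨x0, hx0⟩ := hz
  have hpos : 0 < h x1 := lt_of_le_of_ne (h01 x1).1 (Ne.symm hx1)
  obtain ⟨x2, hx2⟩ : ∃ x2, h x2 = min (h x1) (1 / 4) :=
    mem_range_of_exists_le_of_exists_ge h.continuous
      ⟨x0, by rw [hx0]; exact le_min hpos.le (by norm_num)⟩ ⟨x1, min_le_left _ _⟩
  have hG2 : Continuous fun t : ℝ => min 1 (((2 : ℕ) : ℝ) * t) := by fun_prop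
  have hG3 : Continuous fun t : ℝ => max 0 (min t (1 / 2 - t)) := by fun_prop
  have hGs : Continuous fun t : ℝ => √t := Real.continuous_sqrt
  set s := cmp (fun t => √t) hGs h with hs
  have hss : s * s = h := by
    ext x
    exact Real.mul_self_sqrt (h01 x).1
  have hy : star (φ (cxx s)) * φ (cxx s) = φ (cxx h) := by
    rw [← map_star, star_cxx, ← map_mul, cxx_mul, hss]
  have hx : star (ψ (cxx h')) * ψ (cxx h') = ψ (cxx (h' * h')) := by
    rw [← map_star, star_cxx, ← map_mul, cxx_mul]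
  have hmeq : ∀ f : C(X, ℝ), (τ (ψ (cxx f))).re = mn τ φ f := fun f => by
    unfold mn
    rw [heq]
  have hm := mn_mean τ hτ φ
  set M : ℝ := mn τ φ (cmp _ hG2 h) - mn τ φ (cmp _ hG3 h) with hM
  have hb : 0 < mn τ φ (cmp _ hG3 h) := by
    refine mn_pos τ hτ φ hφ _ (fun x => ?_) x2 ?_
    · rw [cmp_apply]; exact le_max_left _ _
    · rw [cmp_apply, hx2]
      have e1 : 0 < min (h x1) (1 / 4) := lt_min hpos (by norm_num)
      have e2 : min (h x1) (1 / 4) ≤ 1 / 4 := min_le_right _ _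
      have e3 : 0 < min (min (h x1) (1 / 4)) (1 / 2 - min (h x1) (1 / 4)) :=
        lt_min e1 (by linarith)
      exact (lt_of_lt_of_le e3 (le_max_right _ _)).ne'
  obtain ⟨v, hv⟩ := hc (ψ (cxx h')) (φ (cxx s)) M 2
    (by
      intro n
      have hGn : Continuous fun t : ℝ => min 1 ((n : ℝ) * t) := by fun_prop
      rw [hx, cfc_hom_cxx ψ _ hGn, hmeq, hM, le_sub_iff_add_le, ← hm.add]
      refine hm.mono _ _ fun x => ?_
      rw [ContinuousMap.add_apply, cmp_apply, cmp_apply, cmp_apply, ContinuousMap.mul_apply, hh',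
        cmp_apply]
      have e1 := h01 x
      rcases le_total (h x) (1 / 2) with h2 | h2
      · have e2 : max 0 (h x - 1 / 2) = 0 := max_eq_left (by linarith)
        rw [e2, mul_zero, mul_zero, min_eq_right zero_le_one, zero_add]
        refine max_le (le_min zero_le_one (by have := e1.1; positivity)) ?_
        refine (min_le_left _ _).trans (le_min e1.2 ?_)
        push_cast
        linarith
      · have e2 : max 0 (min (h x) (1 / 2 - h x)) = 0 :=
          max_eq_left ((min_le_right _ _).trans (by linarith))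
        have e3 : min 1 (((2 : ℕ) : ℝ) * h x) = 1 := min_eq_left (by push_cast; linarith)
        rw [e2, e3, add_zero]
        exact min_le_left _ _)
    (by
      rw [hy, cfc_hom_cxx φ _ hG2]
      change M < mn τ φ (cmp _ hG2 h)
      rw [hM]
      linarith) ε hε
  rw [hy, hx] at hv
  exact ⟨v, hv.le⟩

/-- the approximate intertwiner -/
theorem lemA [PreconnectedSpace X] (τ : A →ₗ[ℂ] ℂ) (hτ : FTS τ) (hc : CmpT τ)
    (φ ψ : C(X, ℂ) →⋆ₐ[ℂ] A) (hφ : Function.Injective φ) (heq : ∀ f, τ (φ f) = τ (ψ f))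
    (ω ε : ℝ) (hω : 0 < ω) (hε : 0 < ε) (hε1 : ε ≤ 1) (hfar : ∀ p : X, ∃ x : X, ω ≤ dist x p) :
    ∃ (x : A) (S : C(X, ℝ)), ‖x‖ ≤ 2 ∧ (∀ t, 0 ≤ S t ∧ S t ≤ 1) ∧
      ‖star x * x - ψ (cxx (S * S))‖ ≤ ε ∧
      mn τ ψ (cmp (kp (1 / 20) 4) (kp_cont _ _) (S * S)) ≤ ε ∧
      ∀ (f : C(X, ℂ)) (r : ℝ), 0 ≤ r → (∀ x y, dist x y < ω → ‖f x - f y‖ ≤ r) →
        ‖φ f * x - x * ψ f‖ ≤ 3 * r + ε * ‖f‖ := by
  classical
  have hm := mn_mean τ hτ φ
  obtain ⟨N, p, h, h01, hdis, hdist, hmass⟩ := cells hm ω (ε / 20) hω (by positivity)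
  have hG : Continuous fun t : ℝ => max 0 (t - 1 / 2) := by fun_prop
  have hGs : Continuous fun t : ℝ => √t := Real.continuous_sqrt
  set ε' : ℝ := ε ^ 2 / (4 * (N + 1)) with hε'
  have hε'0 : 0 < ε' := by positivity
  have hNε : N * (4 * ε') ≤ ε ^ 2 := by
    rw [hε']
    have : (N : ℝ) * (4 * (ε ^ 2 / (4 * (N + 1)))) = ε ^ 2 * (N / (N + 1)) := by
      field_simp
    rw [this]
    have h1 : (N : ℝ) / (N + 1) ≤ 1 := by
      rw [div_le_one (by positivity)]; linarith
    have h2 := sq_nonneg ε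
    nlinarith
  set h' : ℕ → C(X, ℝ) := fun j => cmp (fun t => max 0 (t - 1 / 2)) hG (h j) with hh'
  set s : ℕ → C(X, ℝ) := fun j => cmp (fun t => √t) hGs (h j) with hs
  have hvv := fun j => cell_cmp τ hτ hc φ ψ hφ heq (h j) (h01 j) (by
    obtain ⟨x, hx⟩ := hfar (p j)
    refine ⟨x, ?_⟩
    by_contra hcon
    exact absurd (hdist j x hcon) (not_lt.2 hx)) hG ε' hε'0
  choose v hv using hvv
  have hpt : ∀ i j, i ≠ j → ∀ x, h i x * h j x = 0 := fun i j hij x =>
    congrArg (fun f : C(X, ℝ) => f x) (hdis i j hij)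
  have hsd : ∀ i j, i ≠ j → s i * s j = 0 := fun i j hij => by
    ext x
    change √(h i x) * √(h j x) = 0
    rw [← Real.sqrt_mul (h01 i x).1, hpt i j hij, Real.sqrt_zero]
  have hh'0 : ∀ i x, h i x = 0 → h' i x = 0 := fun i x hx => by
    simp only [hh', cmp_apply, hx]
    norm_num
  have hh'd : ∀ i j, i ≠ j → h' i * h' j = 0 := fun i j hij => by
    ext x
    rw [ContinuousMap.mul_apply, ContinuousMap.zero_apply]
    rcases mul_eq_zero.1 (hpt i j hij x) with h1 | h1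
    · rw [hh'0 i x h1, zero_mul]
    · rw [hh'0 j x h1, mul_zero]
  have hh'1 : ∀ i x, 0 ≤ h' i x ∧ h' i x ≤ 1 := fun i x => by
    simp only [hh', cmp_apply]
    exact ⟨le_max_left _ _, max_le zero_le_one (by linarith [(h01 i x).2])⟩
  set y : ℕ → A := fun j => φ (cxx (s j)) * star (v j) with hy
  have hss : ∀ j, s j * s j = h j := fun j => by
    ext x
    exact Real.mul_self_sqrt (h01 j x).1
  have hyy : ∀ j, star (y j) * y j = v j * φ (cxx (h j)) * star (v j) := fun j => by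
    simp only [hy]
    rw [star_mul, star_star]
    calc v j * star (φ (cxx (s j))) * (φ (cxx (s j)) * star (v j)) =
          v j * (star (φ (cxx (s j))) * φ (cxx (s j))) * star (v j) := by simp only [mul_assoc]
      _ = _ := by rw [← map_star, star_cxx, ← map_mul, cxx_mul, hss]
  have hyo : ∀ i j, i ≠ j → star (y i) * y j = 0 := fun i j hij => by
    simp only [hy]
    rw [star_mul, star_star]
    calc v i * star (φ (cxx (s i))) * (φ (cxx (s j)) * star (v j)) =
          v i * (star (φ (cxx (s i))) * φ (cxx (s j))) * star (v j) := by simp only [mul_assoc]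
      _ = 0 := by
          rw [← map_star, star_cxx, ← map_mul, cxx_mul, hsd i j hij]
          have : cxx (0 : C(X, ℝ)) = 0 := by ext x; simp [cxx_apply]
          rw [this, map_zero, mul_zero, zero_mul]
  have hyb : ∀ j, ‖star (y j) * y j - ψ (cxx (h' j * h' j))‖ ≤ ε' := fun j => by
    rw [hyy]
    exact hv j
  set x : A := ∑ j ∈ Finset.range N, y j with hx
  set S : C(X, ℝ) := ∑ j ∈ Finset.range N, h' j with hS
  have hSS : S * S = ∑ j ∈ Finset.range N, h' j * h' j := by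
    rw [hS, Finset.sum_mul_sum]
    refine Finset.sum_congr rfl fun i hi => ?_
    rw [Finset.sum_eq_single_of_mem i hi]
    intro j _ hji
    exact hh'd i j hji.symm
  have hxx : star x * x = ∑ j ∈ Finset.range N, star (y j) * y j :=
    star_sum_mul _ _ fun i _ j _ hij => hyo i j hij
  have hS01 : ∀ t, 0 ≤ S t ∧ S t ≤ 1 := fun t => by
    rw [hS, ContinuousMap.sum_apply]
    exact ⟨Finset.sum_nonneg fun j _ => (hh'1 j t).1,
      sum_disj _ _ _ zero_le_one (fun i j hij =>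
        congrArg (fun f : C(X, ℝ) => f t) (hh'd i j hij)) fun i => (hh'1 i t).2⟩
  have hb1 : ‖star x * x - ψ (cxx (S * S))‖ ≤ ε := by
    rw [hxx, hSS, ← cxx_sum, map_sum, ← Finset.sum_sub_distrib]
    calc _ ≤ ∑ j ∈ Finset.range N, ‖star (y j) * y j - ψ (cxx (h' j * h' j))‖ := norm_sum_le _ _
      _ ≤ ∑ _j ∈ Finset.range N, ε' := Finset.sum_le_sum fun j _ => hyb j
      _ = N * ε' := by simp
      _ ≤ ε := by nlinarith
  have hxn : ‖x‖ ≤ 2 := by
    have e1 : ‖ψ (cxx (S * S))‖ ≤ 1 := (hom_norm ψ _).trans (norm_cxx_le _ 1 zero_le_one fun t => by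
      rw [ContinuousMap.mul_apply, abs_of_nonneg (mul_nonneg (hS01 t).1 (hS01 t).1)]
      exact mul_le_one₀ (hS01 t).2 (hS01 t).1 (hS01 t).2)
    have e2 : ‖star x * x‖ ≤ 2 := by
      calc ‖star x * x‖ = ‖(star x * x - ψ (cxx (S * S))) + ψ (cxx (S * S))‖ := by
            rw [sub_add_cancel]
        _ ≤ ‖star x * x - ψ (cxx (S * S))‖ + ‖ψ (cxx (S * S))‖ := norm_add_le _ _
        _ ≤ 2 := by linarith
    rw [CStarRing.norm_star_mul_self] at e2
    nlinarith [norm_nonneg x]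
  refine ⟨x, S, hxn, hS01, hb1, ?_, ?_⟩
  · -- the mass of the complement
    have e0 : mn τ ψ (cmp (kp (1 / 20) 4) (kp_cont _ _) (S * S)) =
        mn τ φ (cmp (kp (1 / 20) 4) (kp_cont _ _) (S * S)) := by
      unfold mn
      rw [heq]
    rw [e0]
    have e1 : mn τ φ (cmp (kp (1 / 20) 4) (kp_cont _ _) (S * S)) ≤
        mn τ φ ((20 : ℝ) • (1 - ∑ j ∈ Finset.range N, h j)) := by
      refine hm.mono _ _ fun t => ?_
      have e2 : ((20 : ℝ) • (1 - ∑ j ∈ Finset.range N, h j) : C(X, ℝ)) t =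
          20 * (1 - ∑ j ∈ Finset.range N, h j t) := by
        rw [ContinuousMap.smul_apply, ContinuousMap.sub_apply, ContinuousMap.sum_apply,
          ContinuousMap.one_apply, smul_eq_mul]
      rw [e2, cmp_apply, ContinuousMap.mul_apply]
      -- at most one of the functions is nonzero
      have e3 : ∃ c : ℝ, 0 ≤ c ∧ c ≤ 1 ∧ ∑ j ∈ Finset.range N, h j t = c ∧
          S t = max 0 (c - 1 / 2) := by
        by_cases h0 : ∃ i ∈ Finset.range N, h i t ≠ 0
        · obtain ⟨i, hi, hin⟩ := h0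
          have e4 : ∀ j, j ≠ i → h j t = 0 := fun j hji => by
            rcases mul_eq_zero.1 (hpt i j hji.symm t) with h2 | h2
            · exact absurd h2 hin
            · exact h2
          refine ⟨h i t, (h01 i t).1, (h01 i t).2, ?_, ?_⟩
          · rw [Finset.sum_eq_single_of_mem i hi]
            intro j _ hji
            exact e4 j hji
          · rw [hS, ContinuousMap.sum_apply, Finset.sum_eq_single_of_mem i hi]
            · rfl
            · intro j _ hji
              exact hh'0 j t (e4 j hji)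
        · push Not at h0
          refine ⟨0, le_rfl, zero_le_one, Finset.sum_eq_zero h0, ?_⟩
          rw [hS, ContinuousMap.sum_apply, Finset.sum_eq_zero fun j hj => hh'0 j t (h0 j hj)]
          norm_num
      obtain ⟨c, hc0, hc1, hc2, hc3⟩ := e3
      rw [hc2, hc3]
      unfold kp
      rcases le_total c (1 / 2) with h1 | h1
      · refine (max_le zero_le_one (min_le_left _ _)).trans ?_
        linarith
      · rw [max_eq_right (by linarith : (0 : ℝ) ≤ c - 1 / 2)]
        refine max_le (by linarith) ((min_le_right _ _).trans ?_)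
        push_cast
        nlinarith
    refine e1.trans ?_
    rw [mn_smul]
    linarith
  · -- the intertwining relation
    intro f r hr hf
    have hcf : ∀ j, ∃ c : C(X, ℂ), (∀ a : A, φ c * a = a * ψ c) ∧ (∀ t, c t = f (p j)) := by
      intro j
      refine ⟨algebraMap ℂ C(X, ℂ) (f (p j)), fun a => ?_, fun t => rfl⟩
      rw [AlgHomClass.commutes, AlgHomClass.commutes]
      exact Algebra.commutes _ _
    choose c hc1 hc2 using hcf
    have e1 : φ f * x - x * ψ f = ∑ j ∈ Finset.range N, φ (f - c j) * y j +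
        ∑ j ∈ Finset.range N, y j * ψ (c j - f) := by
      rw [hx, Finset.mul_sum, Finset.sum_mul, ← Finset.sum_sub_distrib, ← Finset.sum_add_distrib]
      refine Finset.sum_congr rfl fun j _ => ?_
      rw [map_sub, map_sub, sub_mul, mul_sub, hc1]
      abel
    have hnear : ∀ j t, h j t ≠ 0 → ‖f t - f (p j)‖ ≤ r := fun j t ht =>
      hf t (p j) (hdist j t ht)
    have e2 : ‖∑ j ∈ Finset.range N, φ (f - c j) * y j‖ ≤ r * ‖x‖ := by
      refine col1 φ (Finset.range N) s hsd (fun j => star (v j)) (fun j => f - c j) r hr ?_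
      intro j t ht
      rw [ContinuousMap.sub_apply, hc2]
      refine hnear j t fun h0 => ht ?_
      simp only [hs, cmp_apply, h0, Real.sqrt_zero]
    have e3 := col2 ψ (Finset.range N) y hyo h' hh'd
      (fun i t => by rw [abs_of_nonneg (hh'1 i t).1]; exact (hh'1 i t).2) (fun j => c j - f) r
      (2 * ‖f‖) ε' hr
      (fun j => by
        refine (norm_sub_le _ _).trans ?_
        have : ‖c j‖ ≤ ‖f‖ := by
          refine (ContinuousMap.norm_le _ (norm_nonneg _)).2 fun t => ?_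
          rw [hc2]
          exact f.norm_coe_le_norm _
        linarith)
      (fun j t ht => by
        rw [ContinuousMap.sub_apply, hc2, norm_sub_rev]
        exact hnear j t fun h0 => ht (hh'0 j t h0))
      (fun j _ => hyb j)
    have e4 : ‖∑ j ∈ Finset.range N, y j * ψ (c j - f)‖ ≤ r + ε * ‖f‖ := by
      have e5 : ‖∑ j ∈ Finset.range N, y j * ψ (c j - f)‖ ^ 2 ≤ (r + ε * ‖f‖) ^ 2 := by
        refine e3.trans ?_
        rw [Finset.card_range]
        have e6 : (N : ℝ) * ((2 * ‖f‖) ^ 2 * ε') = N * (4 * ε') * ‖f‖ ^ 2 := by ring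
        rw [e6]
        have e7 : (N : ℝ) * (4 * ε') * ‖f‖ ^ 2 ≤ ε ^ 2 * ‖f‖ ^ 2 := by gcongr
        have e8 : 0 ≤ r * (ε * ‖f‖) := by positivity
        nlinarith
      exact (pow_le_pow_iff_left₀ (norm_nonneg _) (by positivity) two_ne_zero).1 e5
    rw [e1]
    calc _ ≤ _ := norm_add_le _ _
      _ ≤ r * ‖x‖ + (r + ε * ‖f‖) := add_le_add e2 e4
      _ ≤ r * 2 + (r + ε * ‖f‖) := by gcongr
      _ = 3 * r + ε * ‖f‖ := by ring

end

end Pool.Agent.H85.UQ
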