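import Pool.Agent.H85.UQ.Core

/-! Tracial states on simple C*-algebras, dimension functions. -/

set_option autoImplicit false

open scoped ComplexConjugate ComplexOrder

noncomputable section

namespace Pool.Agent.H85.UQ

open Pool.Agent.H923R2.FP Pool.Agent.H923R2.FZ Pool.Agent.N300.UN
open Pool.Agent.N300.UN.T_DATA (tr_mono)

section

variable {A : Type} [CStarAlgebra A] (τ : A →ₗ[ℂ] ℂ)

/-- `‖a‖ - a` is a square -/
theorem norm_sub_sq (a : A) (ha : star a = a) (r : ℝ) (hr : ‖a‖ ≤ r) :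
    ∃ w : A, star w * w = ((r : ℝ) : ℂ) • (1 : A) - a := by
  have ha' : IsSelfAdjoint a := ha
  by_cases hN : Nontrivial A
  swap
  · haveI := not_nontrivial_iff_subsingleton.1 hN
    exact ⟨0, Subsingleton.elim _ _⟩
  refine ⟨cfc (fun t : ℝ => √(r - t)) a, ?_⟩
  rw [star_cfc, cmul _ _ _ (by fun_prop) (by fun_prop)]
  have h1 : cfc (fun t : ℝ => √(r - t) * √(r - t)) a = cfc (fun t : ℝ => r - t) a := by
    refine cfc_congr fun t ht => ?_
    have h2 : ‖t‖ ≤ ‖a‖ := spectrum.norm_le_norm_of_mem ht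
    have h3 : t ≤ r := (le_abs_self t).trans (h2.trans hr)
    exact Real.mul_self_sqrt (by linarith)
  rw [h1, cfc_sub (fun _ => r) (fun t : ℝ => t) a continuousOn_const continuousOn_id,
    cfc_id' ℝ a ha', cfc_const r a ha', Algebra.algebraMap_eq_smul_one]
  rfl

theorem real_of_sa (h1 : τ 1 = 1) (hpos : ∀ x, 0 ≤ τ (star x * x)) (a : A) (ha : star a = a) :
    (τ a).im = 0 := by
  obtain ⟨w, hw⟩ := norm_sub_sq a ha ‖a‖ le_rfl
  have h2 := hpos w
  rw [hw, map_sub, map_smul, h1] at h2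
  have h3 := (Complex.nonneg_iff.1 h2).2
  simp at h3
  linarith

theorem tau_star (h1 : τ 1 = 1) (hpos : ∀ x, 0 ≤ τ (star x * x)) (x : A) :
    τ (star x) = conj (τ x) := by
  have h2 := real_of_sa τ h1 hpos (x + star x) (by rw [star_add, star_star, add_comm])
  have h3 := real_of_sa τ h1 hpos (Complex.I • (x - star x)) (by
    rw [star_smul, star_sub, star_star, Complex.star_def, Complex.conj_I, neg_smul, ← smul_neg,
      neg_sub])
  rw [map_add, Complex.add_im] at h2
  rw [map_smul, map_sub, smul_eq_mul, Complex.mul_im, Complex.I_re, Complex.I_im, zero_mul,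
    one_mul, zero_add, Complex.sub_re] at h3
  apply Complex.ext
  · rw [Complex.conj_re]; linarith
  · rw [Complex.conj_im]; linarith

theorem tau_sq_le (h1 : τ 1 = 1) (hpos : ∀ x, 0 ≤ τ (star x * x)) (x : A) :
    (τ (star x * x)).re ≤ ‖x‖ ^ 2 := by
  obtain ⟨w, hw⟩ := norm_sub_sq (star x * x) (by rw [star_mul, star_star]) (‖x‖ ^ 2)
    (by rw [CStarRing.norm_star_mul_self, sq])
  have h2 := hpos w
  rw [hw, map_sub, map_smul, h1] at h2
  have h3 := (Complex.nonneg_iff.1 h2).1
  rw [smul_eq_mul, mul_one, Complex.sub_re, Complex.ofReal_re] at h3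
  linarith

theorem tau_bound (h1 : τ 1 = 1) (hpos : ∀ x, 0 ≤ τ (star x * x)) (x : A) : ‖τ x‖ ≤ ‖x‖ := by
  have h2 := hpos (x - (τ x) • (1 : A))
  have h3 : star (x - (τ x) • (1 : A)) * (x - (τ x) • (1 : A)) = star x * x - (τ x) • star x -
      (conj (τ x)) • x + (conj (τ x) * τ x) • (1 : A) := by
    rw [star_sub, star_smul, star_one, sub_mul, mul_sub, mul_sub, mul_smul_comm, mul_one,
      smul_mul_assoc, one_mul, smul_mul_smul_comm, one_mul, Complex.star_def]
    abel
  rw [h3, map_add, map_sub, map_sub, map_smul, map_smul, map_smul, h1, tau_star τ h1 hpos,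
    smul_eq_mul, smul_eq_mul, smul_eq_mul, mul_one, mul_comm (conj (τ x)) (τ x)] at h2
  have h4 : τ (star x * x) - τ x * conj (τ x) - τ x * conj (τ x) + τ x * conj (τ x) =
      τ (star x * x) - ((‖τ x‖ ^ 2 : ℝ) : ℂ) := by
    rw [Complex.mul_conj']
    push_cast
    ring
  rw [h4] at h2
  have h5 := (Complex.nonneg_iff.1 h2).1
  rw [Complex.sub_re, Complex.ofReal_re] at h5
  have h6 := tau_sq_le τ h1 hpos x
  exact (pow_le_pow_iff_left₀ (norm_nonneg _) (norm_nonneg _) two_ne_zero).1 (by linarith)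

theorem tau_cont (h1 : τ 1 = 1) (hpos : ∀ x, 0 ≤ τ (star x * x)) : Continuous τ :=
  AddMonoidHomClass.continuous_of_bound τ 1 fun x => by
    rw [one_mul]; exact tau_bound τ h1 hpos x

/-- `τ((x y)* (x y)) ≤ ‖x‖² τ(y* y)` -/
theorem tau_left (hpos : ∀ x, 0 ≤ τ (star x * x)) (x y : A) :
    (τ (star (x * y) * (x * y))).re ≤ ‖x‖ ^ 2 * (τ (star y * y)).re := by
  obtain ⟨w, hw⟩ := norm_sub_sq (star x * x) (by rw [star_mul, star_star]) (‖x‖ ^ 2)
    (by rw [CStarRing.norm_star_mul_self, sq])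
  have h2 := hpos (w * y)
  have h3 : star (w * y) * (w * y) = ((‖x‖ ^ 2 : ℝ) : ℂ) • (star y * y) -
      star (x * y) * (x * y) := by
    rw [star_mul]
    calc star y * star w * (w * y) = star y * (star w * w) * y := by simp only [mul_assoc]
      _ = _ := by
          rw [hw, mul_sub, sub_mul, mul_smul_comm, mul_one, smul_mul_assoc, star_mul]
          simp only [mul_assoc]
  rw [h3, map_sub, map_smul, smul_eq_mul] at h2
  have h4 := (Complex.nonneg_iff.1 h2).1
  rw [Complex.sub_re, Complex.re_ofReal_mul] at h4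
  linarith

/-- a tracial state on a simple C*-algebra is faithful -/
theorem fts_of_simple (h1 : τ 1 = 1) (hcomm : ∀ x y, τ (x * y) = τ (y * x))
    (hpos : ∀ x, 0 ≤ τ (star x * x))
    (hsimple : ∀ I : TwoSidedIdeal A, IsClosed (I : Set A) → I = ⊥ ∨ I = ⊤) : FTS τ := by
  have hre : ∀ x, 0 ≤ (τ (star x * x)).re := fun x => (Complex.nonneg_iff.1 (hpos x)).1
  have hz : ∀ x, (τ (star x * x)).re = 0 → ∀ y, (τ (star (y * x) * (y * x))).re = 0 := by
    intro x hx y
    have h2 := tau_left τ hpos y x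
    rw [hx, mul_zero] at h2
    exact le_antisymm h2 (hre _)
  have hs : ∀ x, (τ (star (star x) * star x)).re = (τ (star x * x)).re := fun x => by
    rw [star_star, hcomm]
  let I : TwoSidedIdeal A := TwoSidedIdeal.mk' {x | (τ (star x * x)).re = 0}
    (by simp)
    (by
      intro x y hx hy
      change (τ (star (x + y) * (x + y))).re = 0
      have e1 : star (x + y) * (x + y) + star (x - y) * (x - y) =
          (2 : ℂ) • (star x * x) + (2 : ℂ) • (star y * y) := by
        rw [star_add, star_sub, two_smul, two_smul]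
        noncomm_ring
      have e2 := congrArg (fun z => (τ z).re) e1
      simp only [map_add, map_smul, smul_eq_mul, Complex.add_re] at e2
      have e3 : ((2 : ℂ) * τ (star x * x)).re = 0 := by
        have : (2 : ℂ) = ((2 : ℝ) : ℂ) := by norm_num
        rw [this, Complex.re_ofReal_mul]
        have : (τ (star x * x)).re = 0 := hx
        rw [this, mul_zero]
      have e4 : ((2 : ℂ) * τ (star y * y)).re = 0 := by
        have : (2 : ℂ) = ((2 : ℝ) : ℂ) := by norm_num
        rw [this, Complex.re_ofReal_mul]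
        have : (τ (star y * y)).re = 0 := hy
        rw [this, mul_zero]
      rw [e3, e4] at e2
      have e5 := hre (x + y)
      have e6 := hre (x - y)
      linarith)
    (by
      intro x hx
      change (τ (star (-x) * (-x))).re = 0
      rw [star_neg, neg_mul_neg]
      exact hx)
    (by
      intro x y hy
      exact hz y hy x)
    (by
      intro x y hx
      change (τ (star (x * y) * (x * y))).re = 0
      rw [← hs, star_mul]
      exact hz (star x) (by rw [hs]; exact hx) (star y))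
  have hmem : ∀ x, x ∈ I ↔ (τ (star x * x)).re = 0 := fun x => by
    change x ∈ TwoSidedIdeal.mk' _ _ _ _ _ _ ↔ _
    rw [TwoSidedIdeal.mem_mk']
    rfl
  have hI : I = ⊥ := by
    refine (hsimple I ?_).resolve_right fun h => ?_
    · have h2 : (I : Set A) = (fun x => (τ (star x * x)).re) ⁻¹' {0} := by
        ext x
        exact hmem x
      rw [h2]
      refine isClosed_singleton.preimage ?_
      have h3 := tau_cont τ h1 hpos
      exact Complex.continuous_re.comp (h3.comp (continuous_star.mul continuous_id))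
    · have h2 : (1 : A) ∈ I := by rw [h]; trivial
      rw [hmem, star_one, mul_one, h1, Complex.one_re] at h2
      exact one_ne_zero h2
  refine ⟨h1, hcomm, tau_star τ h1 hpos, hre, fun x hx => ?_, tau_bound τ h1 hpos⟩
  have h2 := (hmem x).2 hx
  rw [hI, TwoSidedIdeal.mem_bot] at h2
  exact h2

end

/-! ### dimension functions -/

section dim

variable {A : Type} [CStarAlgebra A] {τ : A →ₗ[ℂ] ℂ}

theorem spec_pos (a : A) (ha : ∃ x, a = star x * x) (R : ℝ) (hR : ‖a‖ ≤ R) (t : ℝ)
    (ht : t ∈ spectrum ℝ a) : 0 ≤ t ∧ t ≤ R := by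
  obtain ⟨x, rfl⟩ := ha
  have hN : Nontrivial A := by
    by_contra hN
    haveI := not_nontrivial_iff_subsingleton.1 hN
    exact spectrum.mem_iff.1 ht (isUnit_of_subsingleton _)
  refine ⟨spectrum_star_mul_self_nonneg t ht, ?_⟩
  have h2 : ‖t‖ ≤ ‖star x * x‖ := spectrum.norm_le_norm_of_mem ht
  exact (le_abs_self t).trans (h2.trans hR)

/-- monotonicity on the spectrum -/
theorem tr_mono_pos (hτ : FTS τ) (a : A) (ha : ∃ x, a = star x * x) (R : ℝ) (hR : ‖a‖ ≤ R)
    (f g : ℝ → ℝ) (hf : Continuous f) (hg : Continuous g) (h : ∀ t, 0 ≤ t → t ≤ R → f t ≤ g t) :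
    (τ (cfc f a)).re ≤ (τ (cfc g a)).re := by
  have hR0 : 0 ≤ R := (norm_nonneg a).trans hR
  have has : star a = a := by
    obtain ⟨x, rfl⟩ := ha
    rw [star_mul, star_star]
  have key : ∀ k : ℝ → ℝ, cfc k a = cfc (fun t => k (max 0 (min R t))) a := fun k => by
    refine cfc_congr fun t ht => ?_
    obtain ⟨h1, h2⟩ := spec_pos a ha R hR t ht
    simp only [min_eq_right h2, max_eq_right h1]
  rw [key f, key g]
  exact tr_mono hτ a _ _ has (hf.comp (by fun_prop)) (hg.comp (by fun_prop)) fun t =>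
    h _ (le_max_left _ _) (max_le hR0 (min_le_left _ _))

theorem tr_add_const (hτ : FTS τ) (a : A) (ha : star a = a) (f : ℝ → ℝ) (hf : Continuous f)
    (c : ℝ) : (τ (cfc (fun t => f t + c) a)).re = (τ (cfc f a)).re + c := by
  have ha' : IsSelfAdjoint a := ha
  rw [cfc_add a f (fun _ => c) hf.continuousOn continuousOn_const, cfc_const c a ha', map_add,
    Complex.add_re, Algebra.algebraMap_eq_smul_one]
  congr 1
  have h1 : τ (c • (1 : A)) = (c : ℂ) * τ 1 := by
    have : c • (1 : A) = (c : ℂ) • (1 : A) := (Complex.coe_smul _ _).symm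
    rw [this, map_smul, smul_eq_mul]
  rw [h1, hτ.one, mul_one, Complex.ofReal_re]

/-- the traces of the functions `min 1 (n t)` -/
def un (τ : A →ₗ[ℂ] ℂ) (a : A) (n : ℕ) : ℝ :=
  (τ (cfc (fun t : ℝ => min 1 ((n : ℝ) * t)) a)).re

theorem un_le (hτ : FTS τ) (a : A) (ha : ∃ x, a = star x * x) (n : ℕ) : un τ a n ≤ 1 := by
  have h1 := tr_mono_pos hτ a ha ‖a‖ le_rfl (fun t : ℝ => min 1 ((n : ℝ) * t)) (fun _ => 1)
    (by fun_prop) (by fun_prop) (fun t _ _ => min_le_left _ _)
  have has : IsSelfAdjoint a := by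
    obtain ⟨x, rfl⟩ := ha
    exact IsSelfAdjoint.star_mul_self x
  rw [cfc_const_one ℝ a has, hτ.one, Complex.one_re] at h1
  exact h1

theorem un_bdd (hτ : FTS τ) (a : A) (ha : ∃ x, a = star x * x) :
    BddAbove (Set.range (un τ a)) := ⟨1, by rintro _ ⟨n, rfl⟩; exact un_le hτ a ha n⟩

/-- the dimension function as a limit of roots -/
theorem dim_lim (hτ : FTS τ) (a : A) (ha : ∃ x, a = star x * x) :
    Filter.Tendsto (fun k : ℕ => (τ (cfc (fun t : ℝ => t ^ (1 / (k : ℝ))) a)).re) Filter.atTop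
      (nhds (⨆ n, un τ a n)) := by
  have has : star a = a := by
    obtain ⟨x, rfl⟩ := ha
    rw [star_mul, star_star]
  have hk0 : ∀ k : ℕ, (0 : ℝ) ≤ 1 / (k : ℝ) := fun k => by positivity
  have hrc : ∀ k : ℕ, Continuous fun t : ℝ => t ^ (1 / (k : ℝ)) := fun k =>
    Real.continuous_rpow_const (hk0 k)
  have hlim : ∀ c : ℝ, 0 < c → Filter.Tendsto (fun k : ℕ => c ^ (1 / (k : ℝ))) Filter.atTop
      (nhds 1) := by
    intro c hc
    have h1 := ((Real.continuous_const_rpow hc.ne').tendsto 0).comp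
      tendsto_one_div_atTop_nhds_zero_nat
    rw [Real.rpow_zero] at h1
    exact h1
  set R : ℝ := max 1 ‖a‖ with hR
  have hR1 : 1 ≤ R := le_max_left _ _
  refine tendsto_order.2 ⟨fun c hc => ?_, fun c hc => ?_⟩
  · obtain ⟨n, hn⟩ := exists_lt_of_lt_ciSup hc
    set η : ℝ := (un τ a n - c) / 2 with hη
    have hη0 : 0 < η := by rw [hη]; linarith
    set c0 : ℝ := η / (n + 1) with hc0
    have hc00 : 0 < c0 := by positivity
    filter_upwards [(hlim c0 hc00).eventually (lt_mem_nhds (show 1 - η < 1 by linarith))]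
      with k hk
    have h1 := tr_mono_pos hτ a ha R (le_max_right _ _)
      (fun t : ℝ => min 1 ((n : ℝ) * t) + -η) (fun t : ℝ => t ^ (1 / (k : ℝ)))
      (by fun_prop) (hrc k) (fun t ht0 _ => by
        rcases le_total t c0 with h2 | h2
        · have h3 : (n : ℝ) * t ≤ η := by
            have h4 : (n : ℝ) * t ≤ (n + 1) * c0 := by
              have : (n : ℝ) ≤ n + 1 := by linarith
              gcongr
            have h5 : ((n : ℝ) + 1) * c0 = η := by rw [hc0]; field_simp
            linarith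
          have h4 : min 1 ((n : ℝ) * t) ≤ η := (min_le_right _ _).trans h3
          have h5 : 0 ≤ t ^ (1 / (k : ℝ)) := Real.rpow_nonneg ht0 _
          linarith
        · have h3 : c0 ^ (1 / (k : ℝ)) ≤ t ^ (1 / (k : ℝ)) :=
            Real.rpow_le_rpow hc00.le h2 (hk0 k)
          have h4 : min 1 ((n : ℝ) * t) ≤ 1 := min_le_left _ _
          linarith)
    rw [tr_add_const hτ a has _ (by fun_prop)] at h1
    change un τ a n + -η ≤ _ at h1
    refine lt_of_lt_of_le ?_ h1
    rw [hη]
    linarith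
  · set η : ℝ := (c - ⨆ n, un τ a n) / 2 with hη
    have hη0 : 0 < η := by rw [hη]; linarith
    filter_upwards [(hlim R (by linarith)).eventually (gt_mem_nhds (show 1 < 1 + η by linarith)),
      Filter.eventually_ge_atTop 1] with k hk hk1
    have hkp : 0 < 1 / (k : ℝ) := by
      have : (0 : ℝ) < k := by exact_mod_cast hk1
      positivity
    obtain ⟨n, hn⟩ : ∃ n : ℕ, (1 / ((n : ℝ) + 1)) ^ (1 / (k : ℝ)) < η := by
      have h1 := ((hrc k).tendsto 0).comp tendsto_one_div_add_atTop_nhds_zero_nat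
      rw [Real.zero_rpow hkp.ne'] at h1
      exact (h1.eventually (gt_mem_nhds hη0)).exists
    have h1 := tr_mono_pos hτ a ha R (le_max_right _ _)
      (fun t : ℝ => t ^ (1 / (k : ℝ))) (fun t : ℝ => min 1 (((n + 1 : ℕ) : ℝ) * t) + η)
      (hrc k) (by fun_prop) (fun t ht0 htR => by
        have hn0 : (0 : ℝ) < n + 1 := by positivity
        rcases le_total t (1 / ((n : ℝ) + 1)) with h2 | h2
        · have h3 : t ^ (1 / (k : ℝ)) ≤ (1 / ((n : ℝ) + 1)) ^ (1 / (k : ℝ)) :=
            Real.rpow_le_rpow ht0 h2 (hk0 k)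
          have h4 : 0 ≤ min 1 (((n + 1 : ℕ) : ℝ) * t) := le_min zero_le_one (by positivity)
          linarith
        · have h3 : t ^ (1 / (k : ℝ)) ≤ R ^ (1 / (k : ℝ)) := Real.rpow_le_rpow ht0 htR (hk0 k)
          have h4 : (1 : ℝ) ≤ ((n + 1 : ℕ) : ℝ) * t := by
            push_cast
            rw [div_le_iff₀ hn0] at h2
            linarith
          rw [min_eq_left h4]
          linarith)
    rw [tr_add_const hτ a has _ (by fun_prop)] at h1
    change _ ≤ un τ a (n + 1) + η at h1
    refine lt_of_le_of_lt h1 ?_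
    have h2 := le_ciSup (un_bdd hτ a ha) (n + 1)
    rw [hη]
    linarith

/-- strict inequality of the dimension functions -/
theorem dim_lt (hτ : FTS τ) (a b : A) (hb : ∃ x, b = star x * x) (M : ℝ)
    (n0 : ℕ) (h1 : ∀ n : ℕ, (τ (cfc (fun t : ℝ => min 1 ((n : ℝ) * t)) a)).re ≤ M)
    (h2 : M < (τ (cfc (fun t : ℝ => min 1 ((n0 : ℝ) * t)) b)).re) :
    (⨆ n, un τ a n) < ⨆ n, un τ b n :=
  lt_of_le_of_lt (ciSup_le h1) (lt_of_lt_of_le h2 (le_ciSup (un_bdd hτ b hb) n0))

end dim

end Pool.Agent.H85.UQ
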